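import Mathlib

/-!
# A matrix that expands a cone has a large characteristic polynomial
-/

set_option autoImplicit false

open Matrix Polynomial Filter Topology
open scoped ENNReal NNReal

namespace Pool.Agent.R788.SA

/-- The sum of the absolute values of the coefficients of the characteristic polynomial. -/
noncomputable def coefSum {d : ℕ} (A : Matrix (Fin d) (Fin d) ℂ) : ℝ :=
  ∑ i ∈ Finset.range (d + 1), ‖A.charpoly.coeff i‖

/-- Roots of a monic polynomial are bounded by the coefficients. -/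
theorem root_le {p : ℂ[X]} (hp : p.Monic) {z : ℂ} (hz : p.IsRoot z) (h1 : 1 ≤ ‖z‖) :
    ‖z‖ ≤ ∑ i ∈ Finset.range (p.natDegree + 1), ‖p.coeff i‖ := by
  have h0 : p.eval z = 0 := hz
  rw [eval_eq_sum_range, Finset.sum_range_succ, hp.coeff_natDegree, one_mul] at h0
  have hd : p.natDegree ≠ 0 := by
    intro hd
    rw [hd] at h0
    simp at h0
  obtain ⟨n, hn⟩ := Nat.exists_eq_succ_of_ne_zero hd
  have h2 : ‖z‖ ^ p.natDegree ≤ ∑ i ∈ Finset.range p.natDegree, ‖p.coeff i‖ * ‖z‖ ^ i := by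
    rw [← norm_pow, eq_neg_of_add_eq_zero_right h0, norm_neg]
    refine (norm_sum_le _ _).trans (le_of_eq ?_)
    refine Finset.sum_congr rfl fun i _ => ?_
    rw [norm_mul, norm_pow]
  have h3 : ∑ i ∈ Finset.range p.natDegree, ‖p.coeff i‖ * ‖z‖ ^ i ≤
      (∑ i ∈ Finset.range p.natDegree, ‖p.coeff i‖) * ‖z‖ ^ n := by
    rw [Finset.sum_mul]
    refine Finset.sum_le_sum fun i hi => ?_
    rw [Finset.mem_range, hn] at hi
    exact mul_le_mul_of_nonneg_left (pow_le_pow_right₀ h1 (by omega)) (norm_nonneg _)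
  have h4 : ‖z‖ * ‖z‖ ^ n ≤ (∑ i ∈ Finset.range p.natDegree, ‖p.coeff i‖) * ‖z‖ ^ n := by
    refine le_trans (le_of_eq ?_) (h2.trans h3)
    rw [hn, pow_succ]
    ring
  have hpos : 0 < ‖z‖ ^ n := by positivity
  refine (le_of_mul_le_mul_right h4 hpos).trans ?_
  rw [Finset.sum_range_succ]
  linarith [norm_nonneg (p.coeff p.natDegree)]

open scoped Matrix.Norms.Operator in
/-- A matrix which maps a cone to itself and expands the vectors of the cone by the factor `r`. -/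
theorem le_coefSum {d : ℕ} (B : Matrix (Fin d) (Fin d) ℂ) (C : Set (Fin d → ℂ)) (v : Fin d → ℂ)
    (hv : v ∈ C) (hv0 : v ≠ 0) (r : ℝ) (hr : 1 ≤ r)
    (h : ∀ v ∈ C, B *ᵥ v ∈ C ∧ r * ‖v‖ ≤ ‖B *ᵥ v‖) : r ≤ coefSum B := by
  have hd : d ≠ 0 := by
    rintro rfl
    exact hv0 (Subsingleton.elim _ _)
  have : Nonempty (Fin d) := Fin.pos_iff_nonempty.1 (Nat.pos_of_ne_zero hd)
  have hpow : ∀ n : ℕ, (B ^ n) *ᵥ v ∈ C ∧ r ^ n * ‖v‖ ≤ ‖(B ^ n) *ᵥ v‖ := by
    intro n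
    induction n with
    | zero => simpa using hv
    | succ n ih =>
      have h1 := h _ ih.1
      rw [pow_succ', ← Matrix.mulVec_mulVec]
      refine ⟨h1.1, le_trans ?_ h1.2⟩
      rw [pow_succ', mul_assoc]
      exact mul_le_mul_of_nonneg_left ih.2 (by linarith)
  have hnv : 0 < ‖v‖ := norm_pos_iff.2 hv0
  have hB : ∀ n : ℕ, r ^ n ≤ ‖B ^ n‖ := by
    intro n
    have h1 := (hpow n).2.trans (Matrix.linfty_opNorm_mulVec (B ^ n) v)
    exact le_of_mul_le_mul_right h1 hnv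
  have hlim := spectrum.pow_nnnorm_pow_one_div_tendsto_nhds_spectralRadius B
  have hge : ENNReal.ofReal r ≤ spectralRadius ℂ B := by
    refine ge_of_tendsto hlim ?_
    filter_upwards [eventually_gt_atTop 0] with n hn
    have h1 : (ENNReal.ofReal r) ^ n ≤ (‖B ^ n‖₊ : ℝ≥0∞) := by
      rw [← ENNReal.ofReal_pow (by linarith)]
      have := hB n
      rw [← coe_nnnorm] at this
      rw [← ENNReal.ofReal_coe_nnreal]
      exact ENNReal.ofReal_le_ofReal this
    have h2 := ENNReal.rpow_le_rpow h1 (z := 1 / (n : ℝ)) (by positivity)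
    rwa [← ENNReal.rpow_natCast, ← ENNReal.rpow_mul, mul_one_div_cancel (by positivity),
      ENNReal.rpow_one] at h2
  obtain ⟨z, hz, hzr⟩ := spectrum.exists_nnnorm_eq_spectralRadius B
  have hzr' : r ≤ ‖z‖ := by
    rw [← hzr, ← ENNReal.ofReal_coe_nnreal] at hge
    have := (ENNReal.ofReal_le_ofReal_iff (by positivity)).1 hge
    simpa using this
  have hroot : B.charpoly.IsRoot z := Matrix.mem_spectrum_iff_isRoot_charpoly.1 hz
  have h5 := root_le (Matrix.charpoly_monic B) hroot (hr.trans hzr')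
  rw [Matrix.charpoly_natDegree_eq_dim, Fintype.card_fin] at h5
  exact hzr'.trans h5

/-- The cone of the vectors with a largest coordinate in `J`. -/
def cone {d : ℕ} (J : Set (Fin d)) : Set (Fin d → ℂ) := {v | ∃ i ∈ J, ‖v i‖ = ‖v‖}

/-- One step: a small perturbation of a diagonal matrix with large entries on `J` and the
others of absolute value at most one. -/
theorem cone_step {d : ℕ} {J : Set (Fin d)} {w : Fin d → ℂ} {A : Matrix (Fin d) (Fin d) ℂ}
    (hJ : ∀ i ∈ J, 4 ≤ ‖w i‖) (hJ' : ∀ i, i ∉ J → ‖w i‖ ≤ 1)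
    {v : Fin d → ℂ} (hv : v ∈ cone J) (hA : ∀ i, ‖(A *ᵥ v) i - w i * v i‖ ≤ ‖v‖) :
    A *ᵥ v ∈ cone J ∧ 3 * ‖v‖ ≤ ‖A *ᵥ v‖ := by
  obtain ⟨i, hi, hvi⟩ := hv
  have h1 : 3 * ‖v‖ ≤ ‖(A *ᵥ v) i‖ := by
    have h2 := hA i
    have h3 : ‖w i * v i‖ - ‖(A *ᵥ v) i‖ ≤ ‖v‖ := by
      refine (norm_sub_norm_le _ _).trans ?_
      rw [norm_sub_rev]
      exact h2
    rw [norm_mul, hvi] at h3
    have h4 := mul_le_mul_of_nonneg_right (hJ i hi) (norm_nonneg v)
    linarith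
  have h3 : 3 * ‖v‖ ≤ ‖A *ᵥ v‖ := h1.trans (norm_le_pi_norm _ i)
  refine ⟨?_, h3⟩
  have : Nonempty (Fin d) := ⟨i⟩
  obtain ⟨k, hk⟩ : ∃ k, ‖(A *ᵥ v) k‖ = ‖A *ᵥ v‖ := by
    obtain ⟨k, hk⟩ := Finite.exists_max fun k => ‖(A *ᵥ v) k‖
    exact ⟨k, le_antisymm (norm_le_pi_norm _ k) ((pi_norm_le_iff_of_nonneg (norm_nonneg _)).2 hk)⟩
  by_cases hkJ : k ∈ J
  · exact ⟨k, hkJ, hk⟩
  · have h5 : ‖(A *ᵥ v) k‖ ≤ 2 * ‖v‖ := by
      have h6 := hA k
      have h7 : ‖(A *ᵥ v) k‖ ≤ ‖(A *ᵥ v) k - w k * v k‖ + ‖w k * v k‖ := by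
        have := norm_add_le ((A *ᵥ v) k - w k * v k) (w k * v k)
        rwa [sub_add_cancel] at this
      have h8 : ‖w k * v k‖ ≤ ‖v‖ := by
        rw [norm_mul]
        have h9 := mul_le_mul (hJ' k hkJ) (norm_le_pi_norm v k) (norm_nonneg _) zero_le_one
        linarith
      linarith
    rw [hk] at h5
    have h10 : ‖v‖ = 0 := by
      have := norm_nonneg v
      linarith
    have h11 : ‖A *ᵥ v‖ = 0 := by
      have := norm_nonneg (A *ᵥ v)
      rw [h10] at h5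
      linarith
    refine ⟨i, hi, ?_⟩
    rw [h11]
    have := norm_le_pi_norm (A *ᵥ v) i
    rw [h11] at this
    exact le_antisymm this (norm_nonneg _)

end Pool.Agent.R788.SA
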