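import Pool.Agent.R788.SA.OutFin
import Pool.Agent.R788.SA.Spec

/-!
# Uniform growth near the representations `η ⊕ ⋯ ⊕ η ⊕ 1`
-/

set_option autoImplicit false

open scoped MatrixGroups UpperHalfPlane Matrix
open UpperHalfPlane Pool.Agent.Y473.SA

namespace Pool.Agent.R788.SA

variable {Γ : Subgroup SL(2, ℝ)}

/-- The block matrix with `m` blocks `g` and an identity block of size `n`. -/
noncomputable def blk (m n : ℕ) (g : SL(2, ℝ)) :
    Matrix ((Fin 2 × Fin m) ⊕ Fin n) ((Fin 2 × Fin m) ⊕ Fin n) ℂ :=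
  Matrix.fromBlocks (Matrix.blockDiagonal fun _ : Fin m =>
    (g : Matrix (Fin 2) (Fin 2) ℝ).map Complex.ofRealHom) 0 0 1

theorem blk_one (m n : ℕ) : blk m n 1 = 1 := by
  rw [blk]
  have : (fun _ : Fin m => ((1 : SL(2, ℝ)) : Matrix (Fin 2) (Fin 2) ℝ).map Complex.ofRealHom) = 1 := by
    funext _
    simp
  rw [this, Matrix.blockDiagonal_one, Matrix.fromBlocks_one]

theorem blk_mul (m n : ℕ) (g h : SL(2, ℝ)) : blk m n (g * h) = blk m n g * blk m n h := by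
  rw [blk, blk, blk, Matrix.fromBlocks_multiply]
  simp only [Matrix.mul_zero, Matrix.zero_mul, add_zero, zero_add, Matrix.mul_one,
    ← Matrix.blockDiagonal_mul, Matrix.SpecialLinearGroup.coe_mul, Matrix.map_mul]

theorem blk_det (m n : ℕ) (g : SL(2, ℝ)) : (blk m n g).det = 1 := by
  rw [blk, Matrix.det_fromBlocks_zero₂₁, Matrix.det_one, mul_one, Matrix.det_blockDiagonal]
  have : ((g : Matrix (Fin 2) (Fin 2) ℝ).map Complex.ofRealHom).det = 1 := by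
    have h1 := RingHom.map_det Complex.ofRealHom (g : Matrix (Fin 2) (Fin 2) ℝ)
    rw [g.det_coe, map_one] at h1
    exact h1.symm
  simp [this]

/-- The representation `g ↦ g ⊕ ⋯ ⊕ g ⊕ 1` of `SL(2, ℝ)`. -/
noncomputable def R0 {m n d : ℕ} (e : Fin d ≃ (Fin 2 × Fin m) ⊕ Fin n) : SL(2, ℝ) →* SL(d, ℂ) where
  toFun g := ⟨(blk m n g).submatrix e e, by rw [Matrix.det_submatrix_equiv_self, blk_det]⟩
  map_one' := by
    apply Subtype.ext
    change (blk m n 1).submatrix e e = 1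
    rw [blk_one, Matrix.submatrix_one_equiv]
  map_mul' g h := by
    apply Subtype.ext
    change (blk m n (g * h)).submatrix e e = (blk m n g).submatrix e e * (blk m n h).submatrix e e
    rw [blk_mul, Matrix.submatrix_mul_equiv]

theorem R0_coe {m n d : ℕ} (e : Fin d ≃ (Fin 2 × Fin m) ⊕ Fin n) (g : SL(2, ℝ)) :
    ((R0 e g : SL(d, ℂ)) : Matrix (Fin d) (Fin d) ℂ) = (blk m n g).submatrix e e := rfl

/-- The weights of a diagonal element. -/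
noncomputable def wt (m n : ℕ) (D : SL(2, ℝ)) : (Fin 2 × Fin m) ⊕ Fin n → ℂ :=
  Sum.elim (fun a => ((D a.1 a.1 : ℝ) : ℂ)) fun _ => 1

theorem blk_diag {m n : ℕ} {D : SL(2, ℝ)} (h01 : D 0 1 = 0) (h10 : D 1 0 = 0) :
    blk m n D = Matrix.diagonal (wt m n D) := by
  ext i j
  rcases i with ⟨a, s⟩ | i <;> rcases j with ⟨b, t⟩ | j
  · rw [blk, Matrix.fromBlocks_apply₁₁, Matrix.blockDiagonal_apply, Matrix.diagonal_apply]
    by_cases hst : s = t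
    · subst hst
      fin_cases a <;> fin_cases b <;> simp [wt, h01, h10]
    · rw [if_neg hst, if_neg]
      intro h
      exact hst (congrArg Prod.snd (Sum.inl_injective h))
  · simp [blk]
  · simp [blk]
  · simp [blk, wt, Matrix.diagonal_apply, Matrix.one_apply]

theorem R0_diag {m n d : ℕ} (e : Fin d ≃ (Fin 2 × Fin m) ⊕ Fin n) {D : SL(2, ℝ)}
    (h01 : D 0 1 = 0) (h10 : D 1 0 = 0) (v : Fin d → ℂ) (i : Fin d) :
    (((R0 e D : SL(d, ℂ)) : Matrix (Fin d) (Fin d) ℂ) *ᵥ v) i = wt m n D (e i) * v i := by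
  rw [R0_coe, blk_diag h01 h10, Matrix.submatrix_diagonal_equiv, Matrix.mulVec_diagonal]
  rfl

theorem blk_entry {m n : ℕ} {g : SL(2, ℝ)} {κ : ℝ} (hκ : 1 ≤ κ) (hg : ∀ i j, |g i j| ≤ κ)
    (i j : (Fin 2 × Fin m) ⊕ Fin n) : ‖blk m n g i j‖ ≤ κ := by
  have h0 : 0 ≤ κ := by linarith
  rcases i with ⟨a, s⟩ | i <;> rcases j with ⟨b, t⟩ | j
  · rw [blk, Matrix.fromBlocks_apply₁₁, Matrix.blockDiagonal_apply]
    split_ifs
    · simpa using hg a b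
    · simpa using h0
  · simpa [blk] using h0
  · simpa [blk] using h0
  · rw [blk, Matrix.fromBlocks_apply₂₂, Matrix.one_apply]
    split_ifs
    · simpa using hκ
    · simpa using h0

theorem R0_entry {m n d : ℕ} (e : Fin d ≃ (Fin 2 × Fin m) ⊕ Fin n) {g : SL(2, ℝ)} {κ : ℝ}
    (hκ : 1 ≤ κ) (hg : ∀ i j, |g i j| ≤ κ) (i j : Fin d) :
    ‖((R0 e g : SL(d, ℂ)) : Matrix (Fin d) (Fin d) ℂ) i j‖ ≤ κ :=
  blk_entry hκ hg _ _

open scoped Matrix.Norms.Operator in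
theorem norm_le_of_entries {d : ℕ} {A : Matrix (Fin d) (Fin d) ℂ} {c : ℝ} (hc : 0 ≤ c)
    (h : ∀ i j, ‖A i j‖ ≤ c) : ‖A‖ ≤ d * c := by
  rw [Matrix.linfty_opNorm_def]
  have : (Finset.univ.sup fun i => ∑ j, ‖A i j‖₊) ≤ (⟨d * c, by positivity⟩ : NNReal) := by
    refine Finset.sup_le fun i _ => ?_
    have h1 : ∑ j, ‖A i j‖ ≤ d * c := by
      refine (Finset.sum_le_sum fun j _ => h i j).trans ?_
      simp
    refine NNReal.coe_le_coe.1 ?_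
    rw [NNReal.coe_sum]
    exact h1
  exact this

open scoped Matrix.Norms.Operator in
theorem triple_bound {d : ℕ} {A X B : Matrix (Fin d) (Fin d) ℂ} {κ ε : ℝ} (hκ : 0 ≤ κ) (hε : 0 ≤ ε)
    (hA : ∀ i j, ‖A i j‖ ≤ κ) (hX : ∀ i j, ‖X i j‖ ≤ ε) (hB : ∀ i j, ‖B i j‖ ≤ κ)
    (hs : (d : ℝ) ^ 3 * κ ^ 2 * ε ≤ 1) (v : Fin d → ℂ) (i : Fin d) :
    ‖((A * X * B) *ᵥ v) i‖ ≤ ‖v‖ := by
  have h1 := norm_le_of_entries hκ hA
  have h2 := norm_le_of_entries hε hX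
  have h3 := norm_le_of_entries hκ hB
  have h4 : ‖A * X * B‖ ≤ 1 := by
    refine (norm_mul_le _ _).trans ?_
    have h5 : ‖A * X‖ ≤ (d * κ) * (d * ε) :=
      (norm_mul_le _ _).trans (mul_le_mul h1 h2 (norm_nonneg _) (by positivity))
    have h6 : ‖A * X‖ * ‖B‖ ≤ ((d * κ) * (d * ε)) * (d * κ) :=
      mul_le_mul h5 h3 (norm_nonneg _) (by positivity)
    refine h6.trans (le_trans (le_of_eq ?_) hs)
    ring
  have h7 := Matrix.linfty_opNorm_mulVec (A * X * B) v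
  have h8 : ‖A * X * B‖ * ‖v‖ ≤ 1 * ‖v‖ := mul_le_mul_of_nonneg_right h4 (norm_nonneg _)
  have h9 := norm_le_pi_norm ((A * X * B) *ᵥ v) i
  linarith

/-- The translation along the vertical line. -/
noncomputable def aa (t : ℝ) : SL(2, ℝ) :=
  ⟨!![Real.exp (t / 2), 0; 0, Real.exp (-(t / 2))], by
    rw [Matrix.det_fin_two_of, ← Real.exp_add]; simp⟩

theorem aa00 (t : ℝ) : aa t 0 0 = Real.exp (t / 2) := rfl
theorem aa01 (t : ℝ) : aa t 0 1 = 0 := rfl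
theorem aa10 (t : ℝ) : aa t 1 0 = 0 := rfl
theorem aa11 (t : ℝ) : aa t 1 1 = Real.exp (-(t / 2)) := rfl

theorem sl_ext {A B : SL(2, ℝ)} (h00 : A 0 0 = B 0 0) (h01 : A 0 1 = B 0 1) (h10 : A 1 0 = B 1 0)
    (h11 : A 1 1 = B 1 1) : A = B := by
  apply Matrix.SpecialLinearGroup.ext
  intro i j
  fin_cases i <;> fin_cases j
  · exact h00
  · exact h01
  · exact h10
  · exact h11

theorem aa_add (s t : ℝ) : aa (s + t) = aa s * aa t := by
  apply sl_ext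
  · rw [sl_mul_apply, aa00, aa00, aa00, aa01, aa10, mul_zero, add_zero, ← Real.exp_add]
    congr 1; ring
  · rw [sl_mul_apply, aa01, aa01, aa01]; ring
  · rw [sl_mul_apply, aa10, aa10, aa10]; ring
  · rw [sl_mul_apply, aa11, aa11, aa11, aa01, aa10, zero_mul, zero_add, ← Real.exp_add]
    congr 1; ring

theorem aa_zero : aa 0 = 1 := by
  apply sl_ext
  · rw [aa00]; simp
  · rw [aa01]; simp
  · rw [aa10]; simp
  · rw [aa11]; simp

theorem aa_neg (t : ℝ) : aa (-t) = (aa t)⁻¹ := by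
  rw [eq_inv_iff_mul_eq_one, ← aa_add, neg_add_cancel, aa_zero]

theorem aa_smul (t : ℝ) : aa t • (I : ℍ) = vp t := by
  apply UpperHalfPlane.ext_re_im
  · rw [smul_re, aa01, aa10, aa00, aa11]; simp
  · rw [smul_im, aa10, aa11, I_re, I_im, vp_im]
    rw [mul_zero, zero_add, zero_mul, zero_pow two_ne_zero, add_zero, one_div, ← Real.exp_nat_mul,
      ← Real.exp_neg]
    congr 1
    push_cast
    ring

/-- The diagonal form of a nontrivial element, with the sign. -/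
theorem sign_of_axis {g : Γ} {p : SL(2, ℝ)} {l : ℝ} (h : act g (geod p) = flow l (geod p)) :
    ∃ (s : SL(2, ℝ)) (σ : ℝ), |σ| = 1 ∧ s 0 0 = σ ∧ s 1 1 = σ ∧ s 0 1 = 0 ∧ s 1 0 = 0 ∧
      (g : SL(2, ℝ)) * p = p * aa l * s := by
  obtain ⟨lam, h1, h00, h11, h01, h10⟩ := diag_of_axis h
  obtain ⟨D, hD⟩ : ∃ D : SL(2, ℝ), D = p⁻¹ * g * p := ⟨_, rfl⟩
  rw [← hD] at h00 h11 h01 h10
  have hlam : lam ≠ 0 := by
    rintro rfl
    rw [zero_pow two_ne_zero] at h1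
    exact (Real.exp_pos _).ne h1
  have hsq : (Real.exp (-(l / 2)) * lam) ^ 2 = 1 := by
    rw [mul_pow, h1, ← Real.exp_nat_mul, ← Real.exp_add]
    rw [Real.exp_eq_one_iff]
    push_cast
    ring
  have hσ : |Real.exp (-(l / 2)) * lam| = 1 := by
    have := sq_abs (Real.exp (-(l / 2)) * lam)
    rw [hsq] at this
    have h0 := abs_nonneg (Real.exp (-(l / 2)) * lam)
    nlinarith
  have h3 : Real.exp (l / 2) * lam⁻¹ = Real.exp (-(l / 2)) * lam := by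
    have e1 : Real.exp (l / 2) * Real.exp (-(l / 2)) = 1 := by rw [← Real.exp_add]; simp
    have e2 : lam * lam⁻¹ = 1 := mul_inv_cancel₀ hlam
    obtain ⟨u, hu⟩ : ∃ u, u = Real.exp (l / 2) := ⟨_, rfl⟩
    obtain ⟨w, hw⟩ : ∃ w, w = Real.exp (-(l / 2)) := ⟨_, rfl⟩
    rw [← hw] at hsq
    rw [← hu, ← hw] at e1 ⊢
    have e3 : u * lam⁻¹ * (w * lam) ^ 2 = w * lam := by
      calc u * lam⁻¹ * (w * lam) ^ 2 = (u * w) * (lam * lam⁻¹) * (w * lam) := by ring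
        _ = w * lam := by rw [e1, e2]; ring
    rw [hsq, mul_one] at e3
    exact e3
  refine ⟨aa (-l) * D, _, hσ, ?_, ?_, ?_, ?_, ?_⟩
  · rw [sl_mul_apply, aa00, aa01, h00, h10]
    rw [show -l / 2 = -(l / 2) by ring]
    ring
  · rw [sl_mul_apply, aa10, aa11, h11, h01, ← h3]
    rw [show -(-l / 2) = l / 2 by ring]
    ring
  · rw [sl_mul_apply, aa00, aa01, h01, h11]; ring
  · rw [sl_mul_apply, aa10, aa11, h10, h00]; ring
  · rw [hD, aa_neg]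
    group

/-- The entries of an element which moves `i` by a bounded amount are bounded. -/
theorem entries_of_dist {k : SL(2, ℝ)} {R : ℝ} (h : dist I (k • (I : ℍ)) ≤ R) (i j : Fin 2) :
    |k i j| ≤ 2 * Real.cosh R := by
  have hR : 0 ≤ R := dist_nonneg.trans h
  have h1 := cosh_dist_I k
  have h2 : Real.cosh (dist I (k • (I : ℍ))) ≤ Real.cosh R := by
    rw [Real.cosh_le_cosh, abs_of_nonneg dist_nonneg, abs_of_nonneg hR]
    exact h
  have h3 : 1 ≤ Real.cosh R := Real.one_le_cosh R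
  have h4 : (k i j) ^ 2 ≤ 2 * Real.cosh R := by
    have a1 := sq_nonneg (k 0 0)
    have a2 := sq_nonneg (k 0 1)
    have a3 := sq_nonneg (k 1 0)
    have a4 := sq_nonneg (k 1 1)
    fin_cases i <;> fin_cases j
    · change (k 0 0) ^ 2 ≤ _
      linarith
    · change (k 0 1) ^ 2 ≤ _
      linarith
    · change (k 1 0) ^ 2 ≤ _
      linarith
    · change (k 1 1) ^ 2 ≤ _
      linarith
  apply abs_le_of_sq_le_sq _ (by linarith)
  nlinarith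

theorem inv_entries {k : SL(2, ℝ)} {κ : ℝ} (h : ∀ i j, |k i j| ≤ κ) (i j : Fin 2) :
    |k⁻¹ i j| ≤ κ := by
  obtain ⟨i1, i2, i3, i4⟩ := sl_inv_apply k
  fin_cases i <;> fin_cases j
  · change |k⁻¹ 0 0| ≤ κ
    rw [i1]; exact h _ _
  · change |k⁻¹ 0 1| ≤ κ
    rw [i2, abs_neg]; exact h _ _
  · change |k⁻¹ 1 0| ≤ κ
    rw [i3, abs_neg]; exact h _ _
  · change |k⁻¹ 1 1| ≤ κ
    rw [i4]; exact h _ _

/-- The characteristic polynomial is invariant under conjugation. -/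
theorem coefSum_conj {d : ℕ} (h g : SL(d, ℂ)) : coefSum ((h * g * h⁻¹ : SL(d, ℂ)) :
    Matrix (Fin d) (Fin d) ℂ) = coefSum (g : Matrix (Fin d) (Fin d) ℂ) := by
  have hu : IsUnit (h : Matrix (Fin d) (Fin d) ℂ) := by
    rw [Matrix.isUnit_iff_isUnit_det, h.det_coe]
    exact isUnit_one
  have e : (h * g * h⁻¹ : SL(d, ℂ)) = (h : Matrix (Fin d) (Fin d) ℂ) * g *
      (h : Matrix (Fin d) (Fin d) ℂ)⁻¹ := by
    have hinv : ((h⁻¹ : SL(d, ℂ)) : Matrix (Fin d) (Fin d) ℂ) =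
        (h : Matrix (Fin d) (Fin d) ℂ)⁻¹ := by
      symm
      apply Matrix.inv_eq_right_inv
      rw [← Matrix.SpecialLinearGroup.coe_mul, mul_inv_cancel, Matrix.SpecialLinearGroup.coe_one]
    rw [Matrix.SpecialLinearGroup.coe_mul, Matrix.SpecialLinearGroup.coe_mul, hinv]
  rw [coefSum, coefSum, e]
  obtain ⟨u, hu⟩ := hu
  rw [← hu]
  have := Matrix.charpoly_units_conj u (g : Matrix (Fin d) (Fin d) ℂ)
  rw [this]

theorem sl_mulVec {d : ℕ} (A B : SL(d, ℂ)) (v : Fin d → ℂ) :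
    ((A * B : SL(d, ℂ)) : Matrix (Fin d) (Fin d) ℂ) *ᵥ v =
      (A : Matrix (Fin d) (Fin d) ℂ) *ᵥ ((B : Matrix (Fin d) (Fin d) ℂ) *ᵥ v) := by
  rw [Matrix.SpecialLinearGroup.coe_mul, ← Matrix.mulVec_mulVec]

/-- Uniform growth near the representation `g ↦ g ⊕ ⋯ ⊕ g ⊕ 1`. -/
theorem growth (hΓ : IsClosedSurface Γ) {m n d : ℕ} (e : Fin d ≃ (Fin 2 × Fin m) ⊕ Fin n)
    (hm : 0 < m) : ∃ (F : Set Γ) (ε T : ℝ), F.Finite ∧ 0 < ε ∧ 0 < T ∧ ∀ ρ : Rep Γ d,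
      (∀ δ ∈ F, ∀ i j, ‖(ρ.1 δ : Matrix (Fin d) (Fin d) ℂ) i j -
        (R0 e δ : Matrix (Fin d) (Fin d) ℂ) i j‖ < ε) →
      ∀ (γ : Γ) (c : UT) (l : ℝ), T ≤ l → act γ c = flow l c →
        (3 : ℝ) ^ ⌊l / T⌋₊ ≤ coefSum (ρ.1 γ⁻¹ : Matrix (Fin d) (Fin d) ℂ) := by
  obtain ⟨R, hR0, hR⟩ := hΓ.exists_radius
  obtain ⟨κ, hκ⟩ : ∃ κ : ℝ, κ = 2 * Real.cosh R := ⟨_, rfl⟩
  have hκ1 : 1 ≤ κ := by
    have := Real.one_le_cosh R
    linarith
  obtain ⟨T, hT⟩ : ∃ T : ℝ, T = 2 * Real.log 4 := ⟨_, rfl⟩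
  have hT0 : 0 < T := by
    have := Real.log_pos (by norm_num : (1 : ℝ) < 4)
    linarith
  obtain ⟨ε, hε⟩ : ∃ ε : ℝ, ε = 1 / ((d : ℝ) ^ 3 * κ ^ 2 + 1) := ⟨_, rfl⟩
  have hε0 : 0 < ε := by rw [hε]; positivity
  have hεs : (d : ℝ) ^ 3 * κ ^ 2 * ε ≤ 1 := by
    rw [hε, mul_one_div, div_le_one (by positivity)]
    linarith
  refine ⟨{g | ∃ z, dist I z ≤ 0 ∧ dist z (g • z) ≤ 2 * R + 2 * T}, ε, T, hΓ.finite_disp _ _, hε0,
    hT0, ?_⟩
  intro ρ hρ γ c l hl hc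
  obtain ⟨p, rfl⟩ := exists_geod c
  obtain ⟨s, σ, hσ, s00, s11, s01, s10, hs⟩ := sign_of_axis hc
  -- the number of steps
  obtain ⟨N, hN⟩ : ∃ N : ℕ, N = ⌊l / T⌋₊ := ⟨_, rfl⟩
  have hlT : 1 ≤ l / T := by rw [one_le_div hT0]; exact hl
  have hN1 : 1 ≤ N := by rw [hN]; exact Nat.le_floor (by simpa using hlT)
  have hN0 : (0 : ℝ) < N := by exact_mod_cast hN1
  have hN2 : (N : ℝ) * T ≤ l := by
    have := Nat.floor_le (by linarith : 0 ≤ l / T)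
    rw [← hN, le_div_iff₀ hT0] at this
    exact this
  have hN3 : l < (N + 1) * T := by
    have := Nat.lt_floor_add_one (l / T)
    rw [← hN, div_lt_iff₀ hT0] at this
    exact this
  obtain ⟨τ, hτ⟩ : ∃ τ : ℝ, τ = l / N := ⟨_, rfl⟩
  have hNτ : (N : ℝ) * τ = l := by rw [hτ]; field_simp
  have hτ1 : T ≤ τ := by
    rw [hτ, le_div_iff₀ hN0]
    linarith
  have hτ2 : τ ≤ 2 * T := by
    rw [hτ, div_le_iff₀ hN0]
    have : (1 : ℝ) ≤ N := by exact_mod_cast hN1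
    nlinarith
  -- the translates
  choose f₀ hf₀ using fun j : ℕ => hR ((geod p).1 (j * τ))
  obtain ⟨f, hf⟩ : ∃ f : ℕ → Γ, f = fun j => if j = N then f₀ 0 * γ⁻¹ else f₀ j := ⟨_, rfl⟩
  have hf0 : f 0 = f₀ 0 := by rw [hf]; simp; omega
  have hfN : f N = f 0 * γ⁻¹ := by rw [hf0, hf]; simp
  have hfd : ∀ j ≤ N, dist I (f j • (geod p).1 (j * τ)) ≤ R := by
    intro j hj
    by_cases hjN : j = N
    · rw [hjN, hfN, hNτ, mul_smul]
      have : γ⁻¹ • (geod p).1 l = (geod p).1 0 := by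
        rw [inv_smul_eq_iff, ← act_apply, hc, flow_apply, zero_add]
      rw [this, hf0]
      have := hf₀ 0
      simpa using this
    · have : f j = f₀ j := by rw [hf]; simp [hjN]
      rw [this]
      exact hf₀ j
  -- the frames
  obtain ⟨k, hk⟩ : ∃ k : ℕ → SL(2, ℝ), k = fun j => (f j : SL(2, ℝ)) * p * aa (j * τ) := ⟨_, rfl⟩
  have hkd : ∀ j ≤ N, dist I (k j • (I : ℍ)) ≤ R := by
    intro j hj
    have : k j • (I : ℍ) = f j • (geod p).1 (j * τ) := by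
      rw [hk, geod_apply]
      simp only [mul_smul, aa_smul]
      rfl
    rw [this]
    exact hfd j hj
  have hke : ∀ j ≤ N, ∀ a b, |k j a b| ≤ κ := by
    intro j hj a b
    rw [hκ]
    exact entries_of_dist (hkd j hj) a b
  have hke' : ∀ j ≤ N, ∀ a b, |(k j)⁻¹ a b| ≤ κ := fun j hj => inv_entries (hke j hj)
  -- the increments
  have hδF : ∀ j, j + 1 ≤ N → f (j + 1) * (f j)⁻¹ ∈
      {g : Γ | ∃ z, dist I z ≤ 0 ∧ dist z (g • z) ≤ 2 * R + 2 * T} := by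
    intro j hj
    refine ⟨I, by simp, ?_⟩
    have h1 := hfd j (by omega)
    have h2 := hfd (j + 1) hj
    have h3 : dist (f (j + 1) • (geod p).1 ((j + 1 : ℕ) * τ)) (f (j + 1) • (geod p).1 (j * τ)) = τ := by
      rw [dist_smul, line_dist]
      push_cast
      rw [show ((j : ℝ) + 1) * τ - j * τ = τ by ring, abs_of_pos (by linarith)]
    have h4 : dist (f (j + 1) • (geod p).1 (j * τ)) ((f (j + 1) * (f j)⁻¹) • (I : ℍ)) ≤ R := by
      rw [mul_smul, dist_smul, ← dist_smul (f j), smul_inv_smul, dist_comm]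
      exact h1
    have h5 := dist_triangle I (f (j + 1) • (geod p).1 ((j + 1 : ℕ) * τ)) (f (j + 1) • (geod p).1 (j * τ))
    have h6 := dist_triangle I (f (j + 1) • (geod p).1 (j * τ)) ((f (j + 1) * (f j)⁻¹) • (I : ℍ))
    linarith
  have hkk : ∀ j, j + 1 ≤ N → (k (j + 1))⁻¹ * ((f (j + 1) * (f j)⁻¹ : Γ) : SL(2, ℝ)) * k j = aa (-τ) := by
    intro j _
    have e1 : aa (((j + 1 : ℕ) : ℝ) * τ) = aa (j * τ) * aa τ := by
      rw [← aa_add]
      congr 1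
      push_cast
      ring
    rw [hk]
    simp only
    rw [e1, aa_neg]
    push_cast
    group
  -- the cone
  obtain ⟨J, hJ⟩ : ∃ J : Set (Fin d), J = {i | ∃ s, e i = Sum.inl (1, s)} := ⟨_, rfl⟩
  have hexp : 4 ≤ Real.exp (τ / 2) := by
    have h1 : Real.exp (T / 2) = 4 := by
      rw [hT, mul_div_cancel_left₀ _ two_ne_zero, Real.exp_log (by norm_num)]
    rw [← h1]
    exact Real.exp_le_exp.2 (by linarith)
  have hw1 : ∀ i ∈ J, 4 ≤ ‖wt m n (aa (-τ)) (e i)‖ := by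
    rw [hJ]
    rintro i ⟨t, ht⟩
    rw [ht, wt, Sum.elim_inl]
    change 4 ≤ ‖((aa (-τ) 1 1 : ℝ) : ℂ)‖
    rw [aa11, Complex.norm_real, Real.norm_of_nonneg (Real.exp_pos _).le]
    rw [show -(-τ / 2) = τ / 2 by ring]
    exact hexp
  have hw2 : ∀ i, i ∉ J → ‖wt m n (aa (-τ)) (e i)‖ ≤ 1 := by
    rw [hJ]
    intro i hi
    rcases hei : e i with ⟨a, t⟩ | t
    · have ha : a = 0 := by
        fin_cases a
        · rfl
        · exact absurd ⟨t, hei⟩ hi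
      subst ha
      rw [wt, Sum.elim_inl]
      change ‖((aa (-τ) 0 0 : ℝ) : ℂ)‖ ≤ 1
      rw [aa00, Complex.norm_real, Real.norm_of_nonneg (Real.exp_pos _).le, Real.exp_le_one_iff]
      linarith
    · rw [wt, Sum.elim_inr]
      simp
  -- the products
  obtain ⟨K, hK⟩ : ∃ K : ℕ → SL(d, ℂ), K = fun j => R0 e (k j) := ⟨_, rfl⟩
  have hstep : ∀ j, j + 1 ≤ N → ∀ v ∈ cone J,
      ((((K (j + 1))⁻¹ * ρ.1 (f (j + 1) * (f j)⁻¹) * K j : SL(d, ℂ)) : Matrix (Fin d) (Fin d) ℂ) *ᵥ v) ∈ cone J ∧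
      3 * ‖v‖ ≤ ‖(((K (j + 1))⁻¹ * ρ.1 (f (j + 1) * (f j)⁻¹) * K j : SL(d, ℂ)) : Matrix (Fin d) (Fin d) ℂ) *ᵥ v‖ := by
    intro j hj v hv
    apply cone_step hw1 hw2 hv
    intro i
    have e1 : (K (j + 1))⁻¹ * R0 e ((f (j + 1) * (f j)⁻¹ : Γ) : SL(2, ℝ)) * K j = R0 e (aa (-τ)) := by
      rw [hK]
      simp only
      rw [← map_inv, ← map_mul, ← map_mul, hkk j hj]
    have e2 : wt m n (aa (-τ)) (e i) * v i =
        ((((K (j + 1))⁻¹ * R0 e ((f (j + 1) * (f j)⁻¹ : Γ) : SL(2, ℝ)) * K j : SL(d, ℂ)) :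
          Matrix (Fin d) (Fin d) ℂ) *ᵥ v) i := by
      rw [e1, R0_diag e (aa01 _) (aa10 _)]
    rw [e2, ← Pi.sub_apply, ← Matrix.sub_mulVec]
    simp only [Matrix.SpecialLinearGroup.coe_mul]
    rw [← Matrix.sub_mul, ← Matrix.mul_sub]
    refine triple_bound (by linarith) hε0.le ?_ (fun a b => (hρ _ (hδF j hj) a b).le) ?_ hεs v i
    · intro a b
      rw [hK]
      simp only
      rw [← map_inv]
      exact R0_entry e hκ1 (hke' (j + 1) hj) a b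
    · intro a b
      rw [hK]
      exact R0_entry e hκ1 (hke j (by omega)) a b
  have hprod : ∀ j ≤ N, ∀ v ∈ cone J,
      ((((K j)⁻¹ * ρ.1 (f j * (f 0)⁻¹) * K 0 : SL(d, ℂ)) : Matrix (Fin d) (Fin d) ℂ) *ᵥ v) ∈ cone J ∧
      3 ^ j * ‖v‖ ≤ ‖(((K j)⁻¹ * ρ.1 (f j * (f 0)⁻¹) * K 0 : SL(d, ℂ)) : Matrix (Fin d) (Fin d) ℂ) *ᵥ v‖ := by
    have hρ1 : ρ.1 1 = 1 := by
      have := ρ.2 1 1
      rw [mul_one] at this
      exact left_eq_mul.1 this
    intro j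
    induction j with
    | zero =>
      intro _ v hv
      rw [mul_inv_cancel, hρ1, mul_one, inv_mul_cancel, Matrix.SpecialLinearGroup.coe_one,
        Matrix.one_mulVec, pow_zero, one_mul]
      exact ⟨hv, le_rfl⟩
    | succ j ih =>
      intro hj v hv
      obtain ⟨h1, h2⟩ := ih (by omega) v hv
      obtain ⟨h3, h4⟩ := hstep j hj _ h1
      have e1 : (K (j + 1))⁻¹ * ρ.1 (f (j + 1) * (f 0)⁻¹) * K 0 =
          ((K (j + 1))⁻¹ * ρ.1 (f (j + 1) * (f j)⁻¹) * K j) *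
            ((K j)⁻¹ * ρ.1 (f j * (f 0)⁻¹) * K 0) := by
        have : f (j + 1) * (f 0)⁻¹ = (f (j + 1) * (f j)⁻¹) * (f j * (f 0)⁻¹) := by group
        rw [this, ρ.2]
        group
      rw [e1, sl_mulVec ((K (j + 1))⁻¹ * ρ.1 (f (j + 1) * (f j)⁻¹) * K j)]
      refine ⟨h3, ?_⟩
      rw [pow_succ']
      linarith
  -- the holonomy
  have hB : (K 0)⁻¹ * ρ.1 (f 0 * γ⁻¹ * (f 0)⁻¹) * K 0 =
      R0 e s⁻¹ * ((K N)⁻¹ * ρ.1 (f N * (f 0)⁻¹) * K 0) := by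
    have hkN : k N = k 0 * s⁻¹ := by
      have h1 : k N = (f 0 : SL(2, ℝ)) * (γ : SL(2, ℝ))⁻¹ * p * aa l := by
        rw [hk]
        simp only
        rw [hNτ, hfN]
        push_cast
        rfl
      have h2 : k 0 = (f 0 : SL(2, ℝ)) * p := by
        rw [hk]
        simp only [Nat.cast_zero, zero_mul, aa_zero, mul_one]
      have h3 : aa l = p⁻¹ * (γ : SL(2, ℝ)) * p * s⁻¹ := by
        have : p * aa l = (γ : SL(2, ℝ)) * p * s⁻¹ := by rw [hs]; group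
        rw [mul_assoc p⁻¹, mul_assoc p⁻¹, ← this]
        group
      rw [h1, h2, h3]
      group
    have hKN : (K N)⁻¹ = R0 e s * (K 0)⁻¹ := by
      rw [hK]
      simp only
      rw [hkN, map_mul, map_inv, mul_inv_rev, inv_inv]
    rw [hKN, hfN, map_inv]
    group
  have hsi : s⁻¹ 0 1 = 0 ∧ s⁻¹ 1 0 = 0 ∧ s⁻¹ 0 0 = σ ∧ s⁻¹ 1 1 = σ := by
    obtain ⟨i1, i2, i3, i4⟩ := sl_inv_apply s
    rw [i1, i2, i3, i4, s00, s11, s01, s10]
    simp
  have hsw : ∀ i, ‖wt m n s⁻¹ (e i)‖ = 1 := by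
    intro i
    rcases hei : e i with ⟨a, t⟩ | t
    · rw [wt, Sum.elim_inl]
      fin_cases a
      · change ‖((s⁻¹ 0 0 : ℝ) : ℂ)‖ = 1
        rw [hsi.2.2.1, Complex.norm_real, Real.norm_eq_abs, hσ]
      · change ‖((s⁻¹ 1 1 : ℝ) : ℂ)‖ = 1
        rw [hsi.2.2.2, Complex.norm_real, Real.norm_eq_abs, hσ]
    · rw [wt, Sum.elim_inr]
      simp
  have hsn : ∀ v i, ‖((R0 e s⁻¹ : Matrix (Fin d) (Fin d) ℂ) *ᵥ v) i‖ = ‖v i‖ := by
    intro v i
    rw [R0_diag e hsi.1 hsi.2.1, norm_mul, hsw, one_mul]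
  have hsN : ∀ v, ‖(R0 e s⁻¹ : Matrix (Fin d) (Fin d) ℂ) *ᵥ v‖ = ‖v‖ := by
    intro v
    apply le_antisymm
    · refine (pi_norm_le_iff_of_nonneg (norm_nonneg _)).2 fun i => ?_
      rw [hsn]
      exact norm_le_pi_norm v i
    · refine (pi_norm_le_iff_of_nonneg (norm_nonneg _)).2 fun i => ?_
      rw [← hsn]
      exact norm_le_pi_norm _ i
  -- conclusion
  have hcs : coefSum (ρ.1 γ⁻¹ : Matrix (Fin d) (Fin d) ℂ) =
      coefSum (((K 0)⁻¹ * ρ.1 (f 0 * γ⁻¹ * (f 0)⁻¹) * K 0 : SL(d, ℂ)) : Matrix (Fin d) (Fin d) ℂ) := by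
    have hρinv : ρ.1 (f 0)⁻¹ = (ρ.1 (f 0))⁻¹ := by
      have hρ1 : ρ.1 1 = 1 := by
        have := ρ.2 1 1
        rw [mul_one] at this
        exact left_eq_mul.1 this
      rw [eq_inv_iff_mul_eq_one, ← ρ.2, inv_mul_cancel, hρ1]
    have : (K 0)⁻¹ * ρ.1 (f 0 * γ⁻¹ * (f 0)⁻¹) * K 0 =
        ((K 0)⁻¹ * ρ.1 (f 0)) * ρ.1 γ⁻¹ * ((K 0)⁻¹ * ρ.1 (f 0))⁻¹ := by
      rw [ρ.2, ρ.2, hρinv]
      group
    rw [this, coefSum_conj]
  obtain ⟨v, hv, hv0⟩ : ∃ v ∈ cone J, v ≠ 0 := by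
    obtain ⟨i₀, hi₀⟩ : ∃ i₀, e i₀ = Sum.inl (1, ⟨0, hm⟩) := ⟨e.symm _, e.apply_symm_apply _⟩
    refine ⟨Pi.single i₀ 1, ⟨i₀, ?_, ?_⟩, ?_⟩
    · rw [hJ]; exact ⟨_, hi₀⟩
    · rw [Pi.single_eq_same]
      apply le_antisymm
      · have := norm_le_pi_norm (Pi.single i₀ (1 : ℂ) : Fin d → ℂ) i₀
        rwa [Pi.single_eq_same] at this
      · refine (pi_norm_le_iff_of_nonneg (norm_nonneg _)).2 fun i => ?_
        by_cases hi : i = i₀
        · subst hi; rw [Pi.single_eq_same]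
        · rw [Pi.single_eq_of_ne hi]; simp
    · intro h0
      have := congrFun h0 i₀
      rw [Pi.single_eq_same] at this
      exact one_ne_zero this
  rw [hcs, ← hN]
  refine le_coefSum _ (cone J) v hv hv0 _ (one_le_pow₀ (by norm_num)) ?_
  intro u hu
  rw [hB, sl_mulVec]
  obtain ⟨h1, h2⟩ := hprod N le_rfl u hu
  refine ⟨?_, ?_⟩
  · obtain ⟨i, hi, hi'⟩ := h1
    exact ⟨i, hi, by rw [hsn, hsN, hi']⟩
  · rw [hsN]
    exact h2

end Pool.Agent.R788.SA
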