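import Pool.Agent.R788.SA.Red

/-!
# The representations `η ⊕ ⋯ ⊕ η ⊕ 1` are not simple Anosov for suitable `k`
-/

set_option autoImplicit false

open scoped MatrixGroups UpperHalfPlane Matrix
open UpperHalfPlane Pool.Agent.Y473.SA

namespace Pool.Agent.R788.SA

variable {Γ : Subgroup SL(2, ℝ)}

/-- Linearly independent vectors fixed by `P`. -/
theorem card_le_rank {d : ℕ} (P : Matrix (Fin d) (Fin d) ℂ) {T : Type} [Fintype T]
    {u : T → Fin d → ℂ} (hu : LinearIndependent ℂ u) (h : ∀ t, P *ᵥ u t = u t) :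
    Fintype.card T ≤ P.rank := by
  have h1 : ∀ t, u t ∈ LinearMap.range P.mulVecLin := fun t => ⟨u t, h t⟩
  have h2 : LinearIndependent ℂ (fun t => (⟨u t, h1 t⟩ : LinearMap.range P.mulVecLin)) :=
    LinearIndependent.of_comp (LinearMap.range P.mulVecLin).subtype hu
  exact h2.fintype_card_le_finrank

/-- Linearly independent vectors in the kernel of `P`. -/
theorem rank_add_card_le {d : ℕ} (P : Matrix (Fin d) (Fin d) ℂ) {T : Type} [Fintype T]
    {u : T → Fin d → ℂ} (hu : LinearIndependent ℂ u) (h : ∀ t, P *ᵥ u t = 0) :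
    P.rank + Fintype.card T ≤ d := by
  have h1 : ∀ t, u t ∈ LinearMap.ker P.mulVecLin := fun t => h t
  have h2 : LinearIndependent ℂ (fun t => (⟨u t, h1 t⟩ : LinearMap.ker P.mulVecLin)) :=
    LinearIndependent.of_comp (LinearMap.ker P.mulVecLin).subtype hu
  have h3 := h2.fintype_card_le_finrank
  have h4 := LinearMap.finrank_range_add_finrank_ker P.mulVecLin
  rw [Module.finrank_fin_fun] at h4
  change Module.finrank ℂ (LinearMap.range P.mulVecLin) + _ ≤ d
  omega

theorem linInd_single {d : ℕ} : LinearIndependent ℂ fun i : Fin d => (Pi.single i 1 : Fin d → ℂ) :=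
  Pi.linearIndependent_single_one (Fin d) ℂ

theorem ker_sl {d : ℕ} (K : SL(d, ℂ)) :
    LinearMap.ker (K : Matrix (Fin d) (Fin d) ℂ).mulVecLin = ⊥ := by
  rw [LinearMap.ker_eq_bot']
  intro v hv
  have h3 : ((K⁻¹ * K : SL(d, ℂ)) : Matrix (Fin d) (Fin d) ℂ) *ᵥ v = 0 := by
    rw [sl_mulVec]
    have : (K : Matrix (Fin d) (Fin d) ℂ) *ᵥ v = 0 := hv
    rw [this, Matrix.mulVec_zero]
  rwa [inv_mul_cancel, Matrix.SpecialLinearGroup.coe_one, Matrix.one_mulVec] at h3

/-- The columns of an invertible matrix. -/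
theorem linInd_columns {d : ℕ} (K : SL(d, ℂ)) {T : Type} (f : T → Fin d) (hf : Function.Injective f) :
    LinearIndependent ℂ fun t => (K : Matrix (Fin d) (Fin d) ℂ) *ᵥ Pi.single (f t) 1 := by
  have h2 : LinearIndependent ℂ fun t => (Pi.single (f t) 1 : Fin d → ℂ) := linInd_single.comp f hf
  have h3 := h2.map' _ (ker_sl K)
  exact h3

/-- The numerical contradiction. -/
theorem no_dom {C a l r s : ℝ} (ha : 0 < a) (hl : 0 < l) (hs : 0 < s) (hrs : s ≤ r)
    (h : ∀ n : ℕ, r ^ n ≤ C * Real.exp (-a * (n * l)) * s ^ n) : False := by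
  have h1 : ∀ n : ℕ, 1 ≤ C * Real.exp (-a * (n * l)) := by
    intro n
    have h2 := h n
    have h3 : s ^ n ≤ r ^ n := pow_le_pow_left₀ hs.le hrs n
    have h4 : 0 < s ^ n := by positivity
    have h5 : 1 * s ^ n ≤ C * Real.exp (-a * (n * l)) * s ^ n := by linarith
    exact le_of_mul_le_mul_right h5 h4
  have h2 : Filter.Tendsto (fun n : ℕ => C * Real.exp (-a * ((n : ℝ) * l))) Filter.atTop (nhds (C * 0)) := by
    apply Filter.Tendsto.const_mul
    apply Real.tendsto_exp_atBot.comp
    have h3 : Filter.Tendsto (fun n : ℕ => (n : ℝ) * (a * l)) Filter.atTop Filter.atTop :=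
      tendsto_natCast_atTop_atTop.atTop_mul_const (by positivity)
    have h4 : (fun n : ℕ => -a * ((n : ℝ) * l)) = fun n : ℕ => -((n : ℝ) * (a * l)) := by
      funext n; ring
    rw [h4]
    exact Filter.tendsto_neg_atTop_atBot.comp h3
  have h3 := ge_of_tendsto' h2 h1
  rw [mul_zero] at h3
  linarith

/-- The conjugates of the representation `η ⊕ ⋯ ⊕ η ⊕ 1` are not simple `k`-Anosov if `k` lies
strictly between two consecutive partial sums of the multiplicities `m, n, m`. -/
theorem not_anosov (hΓ : IsClosedSurface Γ) {m n d k : ℕ} (e : Fin d ≃ (Fin 2 × Fin m) ⊕ Fin n)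
    (hk : (0 < k ∧ k < m) ∨ (m < k ∧ k < m + n) ∨ (m + n < k ∧ k < d)) (ρ : Rep Γ d) (h : SL(d, ℂ))
    (hρ : ∀ g, ρ.1 g = h * R0 e g * h⁻¹) : ¬ IsSimpleAnosov k ρ := by
  rintro ⟨P, N, C, a, hC, ha, -, hP, hPeq, hPfl, -, hN0, hNeq, hdom⟩
  have hd : d = 2 * m + n := by
    have := Fintype.card_congr e
    simpa using this
  obtain ⟨g, c, l, hcl, hgc⟩ := hΓ.exists_simple hΓ.exists_ne_one
  have hcB : c ∈ birmanSeries Γ := subset_closure ⟨l, hcl⟩
  have hl : 0 < l := hcl.1
  -- diagonalisation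
  obtain ⟨p, hp⟩ := exists_geod c
  obtain ⟨lam, hlam2, h00, h11, h01, h10⟩ := diag_of_axis (hp ▸ hgc : act g (geod p) = flow l (geod p))
  obtain ⟨D, hD⟩ : ∃ D : SL(2, ℝ), D = p⁻¹ * g * p := ⟨_, rfl⟩
  rw [← hD] at h00 h11 h01 h10
  have hlam1 : 1 < |lam| := by
    have h1 : 1 < lam ^ 2 := by rw [hlam2]; exact Real.one_lt_exp_iff.2 hl
    by_contra hle
    push Not at hle
    have := sq_abs lam
    nlinarith [abs_nonneg lam]
  have hlampos : 0 < |lam| := by linarith
  have hlam0 : lam ≠ 0 := abs_pos.1 hlampos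
  have hlaminv : |lam|⁻¹ < 1 := inv_lt_one_of_one_lt₀ hlam1
  obtain ⟨K, hK⟩ : ∃ K : SL(d, ℂ), K = h * R0 e p := ⟨_, rfl⟩
  obtain ⟨u, hu⟩ : ∃ u : Fin d → Fin d → ℂ,
    u = fun i => (K : Matrix (Fin d) (Fin d) ℂ) *ᵥ Pi.single i 1 := ⟨_, rfl⟩
  obtain ⟨w, hw⟩ : ∃ w : Fin d → ℂ, w = fun i => wt m n D (e i) := ⟨_, rfl⟩
  have hAK : ρ.1 g * K = K * R0 e D := by
    rw [hρ, hK, hD, map_mul, map_mul, map_inv]
    group
  have hAu : ∀ i, (ρ.1 g : Matrix (Fin d) (Fin d) ℂ) *ᵥ u i = w i • u i := by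
    intro i
    rw [hu]
    simp only
    rw [← sl_mulVec, hAK, sl_mulVec]
    have : (R0 e D : Matrix (Fin d) (Fin d) ℂ) *ᵥ Pi.single i 1 = w i • Pi.single i 1 := by
      funext j
      rw [R0_diag e h01 h10, Pi.smul_apply, smul_eq_mul, hw]
      by_cases hij : j = i
      · subst hij; rfl
      · rw [Pi.single_eq_of_ne hij, mul_zero, mul_zero]
    rw [this, Matrix.mulVec_smul]
  have hw0 : ∀ i, w i ≠ 0 := by
    intro i
    rw [hw]
    simp only
    rcases hei : e i with ⟨b, t⟩ | t
    · rw [wt, Sum.elim_inl]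
      fin_cases b
      · change ((D 0 0 : ℝ) : ℂ) ≠ 0
        rw [h00]; exact_mod_cast hlam0
      · change ((D 1 1 : ℝ) : ℂ) ≠ 0
        rw [h11]; exact_mod_cast inv_ne_zero hlam0
    · rw [wt, Sum.elim_inr]; exact one_ne_zero
  obtain ⟨Q, hQ⟩ : ∃ Q, Q = P c := ⟨_, rfl⟩
  obtain ⟨hQ2, hQk⟩ := hP c hcB
  rw [← hQ] at hQ2 hQk
  have hcomm : Q * (ρ.1 g).1 = (ρ.1 g).1 * Q := by
    have h1 := hPeq c hcB g
    rwa [hgc, hPfl c hcB, ← hQ] at h1
  -- eigenvectors and the norm
  have hρ1 : ρ.1 1 = 1 := by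
    have := ρ.2 1 1
    rw [mul_one] at this
    exact left_eq_mul.1 this
  have hpow : ∀ (s : ℂ) (v : Fin d → ℂ), (ρ.1 g : Matrix (Fin d) (Fin d) ℂ) *ᵥ v = s • v →
      ∀ n : ℕ, (ρ.1 (g ^ n) : Matrix (Fin d) (Fin d) ℂ) *ᵥ v = s ^ n • v := by
    intro s v hv n
    induction n with
    | zero => rw [pow_zero, hρ1, Matrix.SpecialLinearGroup.coe_one, Matrix.one_mulVec, pow_zero, one_smul]
    | succ n ih =>
      rw [pow_succ, ρ.2, sl_mulVec, hv, Matrix.mulVec_smul, ih, smul_smul, ← pow_succ']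
  have hNn : ∀ (s : ℂ) (v : Fin d → ℂ), (ρ.1 g : Matrix (Fin d) (Fin d) ℂ) *ᵥ v = s • v →
      ∀ n : ℕ, ‖s‖ ^ n * N (flow (n * l) c) v = N c v := by
    intro s v hv n
    have h1 := zpow_axis hgc n
    rw [zpow_natCast] at h1
    have h2 := hNeq c hcB (g ^ n) v
    rw [h1] at h2
    have h3 : (ρ.1 (g ^ n)).1 *ᵥ v = s ^ n • v := hpow s v hv n
    rw [h3, map_smul_eq_mul, norm_pow] at h2
    simpa using h2
  have key : ∀ (s s' : ℂ) (v v' : Fin d → ℂ), (ρ.1 g : Matrix (Fin d) (Fin d) ℂ) *ᵥ v = s • v →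
      (ρ.1 g : Matrix (Fin d) (Fin d) ℂ) *ᵥ v' = s' • v' → Q *ᵥ v = v → Q *ᵥ v' = 0 → v ≠ 0 → v' ≠ 0 →
      s' ≠ 0 → ‖s'‖ ≤ ‖s‖ → False := by
    intro s s' v v' hv hv' hQv hQv' hv0 hv'0 hs' hle
    apply no_dom (C := C) (r := ‖s‖) ha hl (norm_pos_iff.2 hs') hle
    intro n
    have h1 := hdom c hcB v v' (by rw [← hQ]; exact hQv) (by rw [← hQ]; exact hQv') (n * l) (by positivity)
    have h2 := hNn s v hv n
    have h3 := hNn s' v' hv' n
    have n1 : 0 < N c v := lt_of_le_of_ne (apply_nonneg _ _) fun h => hv0 (hN0 c hcB v h.symm)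
    have n2 : 0 < N c v' := lt_of_le_of_ne (apply_nonneg _ _) fun h => hv'0 (hN0 c hcB v' h.symm)
    have n3 : 0 ≤ N (flow (n * l) c) v := apply_nonneg _ _
    have n4 : 0 ≤ N (flow (n * l) c) v' := apply_nonneg _ _
    have p1 : 0 ≤ ‖s‖ ^ n := by positivity
    have p2 : 0 ≤ ‖s'‖ ^ n := by positivity
    have h4 := mul_le_mul_of_nonneg_left h1 (mul_nonneg p1 p2)
    have e1 : ‖s‖ ^ n * ‖s'‖ ^ n * (N (flow (n * l) c) v' * N c v) = ‖s‖ ^ n * (N c v' * N c v) := by
      rw [← h3]; ring
    have e2 : ‖s‖ ^ n * ‖s'‖ ^ n * (C * Real.exp (-a * (n * l)) * (N (flow (n * l) c) v * N c v')) =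
        (C * Real.exp (-a * (n * l)) * ‖s'‖ ^ n) * (N c v' * N c v) := by
      have : ‖s‖ ^ n * ‖s'‖ ^ n * (C * Real.exp (-a * (n * l)) * (N (flow (n * l) c) v * N c v')) =
        C * Real.exp (-a * (n * l)) * ‖s'‖ ^ n * (N c v' * (‖s‖ ^ n * N (flow (n * l) c) v)) := by ring
      rw [this, h2]
    rw [e1, e2] at h4
    exact le_of_mul_le_mul_right h4 (mul_pos n2 n1)
  -- the components of an eigenvector
  have hQA : ∀ v, Q *ᵥ ((ρ.1 g : Matrix (Fin d) (Fin d) ℂ) *ᵥ v) =
      (ρ.1 g : Matrix (Fin d) (Fin d) ℂ) *ᵥ (Q *ᵥ v) := by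
    intro v
    rw [Matrix.mulVec_mulVec, Matrix.mulVec_mulVec]
    exact congrArg (· *ᵥ v) hcomm
  have hc1 : ∀ i, (ρ.1 g : Matrix (Fin d) (Fin d) ℂ) *ᵥ (Q *ᵥ u i) = w i • (Q *ᵥ u i) := by
    intro i
    rw [← hQA, hAu, Matrix.mulVec_smul]
  have hc2 : ∀ i, (ρ.1 g : Matrix (Fin d) (Fin d) ℂ) *ᵥ (u i - Q *ᵥ u i) = w i • (u i - Q *ᵥ u i) := by
    intro i
    rw [Matrix.mulVec_sub, hc1, hAu, smul_sub]
  have hQQ : ∀ v, Q *ᵥ (Q *ᵥ v) = Q *ᵥ v := by
    intro v
    rw [Matrix.mulVec_mulVec, hQ2]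
  have hQQ' : ∀ v, Q *ᵥ (v - Q *ᵥ v) = 0 := by
    intro v
    rw [Matrix.mulVec_sub, hQQ, sub_self]
  -- dichotomy: if `w i` is at least as large as `w j`, then `Q u_i = 0` or `Q u_j = u_j`
  have hdich : ∀ i j, ‖w j‖ ≤ ‖w i‖ → Q *ᵥ u i = 0 ∨ Q *ᵥ u j = u j := by
    intro i j hij
    by_contra hcon
    push Not at hcon
    obtain ⟨h1, h2⟩ := hcon
    exact key (w i) (w j) (Q *ᵥ u i) (u j - Q *ᵥ u j) (hc1 i) (hc2 j) (hQQ _) (hQQ' _) h1
      (fun h => h2 (sub_eq_zero.1 h).symm) (hw0 j) hij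
  have hlin : ∀ {T : Type} (f : T → Fin d), Function.Injective f → LinearIndependent ℂ fun t => u (f t) := by
    intro T f hf
    rw [hu]
    exact linInd_columns K f hf
  -- the three families
  have hwn : ∀ b t, ‖w (e.symm (Sum.inl (b, t)))‖ = if b = 0 then |lam| else |lam|⁻¹ := by
    intro b t
    rw [hw]
    simp only [Equiv.apply_symm_apply]
    rw [wt, Sum.elim_inl]
    fin_cases b
    · change ‖((D 0 0 : ℝ) : ℂ)‖ = _
      rw [h00, Complex.norm_real]; simp
    · change ‖((D 1 1 : ℝ) : ℂ)‖ = _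
      rw [h11, Complex.norm_real, Real.norm_eq_abs, abs_inv]; simp
  have hwr : ∀ t, ‖w (e.symm (Sum.inr t))‖ = 1 := by
    intro t
    rw [hw]
    simp only [Equiv.apply_symm_apply]
    rw [wt, Sum.elim_inr]
    simp
  rcases hk with ⟨hk1, hk2⟩ | ⟨hk1, hk2⟩ | ⟨hk1, hk2⟩
  · -- smallest weight
    by_cases hall : ∀ t : Fin m, Q *ᵥ u (e.symm (Sum.inl (1, t))) = u (e.symm (Sum.inl (1, t)))
    · have h1 := card_le_rank Q (hlin (fun t : Fin m => e.symm (Sum.inl (1, t))) (by
        intro s t hst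
        have := Sum.inl_injective (e.symm.injective hst)
        exact congrArg Prod.snd this)) hall
      rw [hQk, Fintype.card_fin] at h1
      omega
    · push Not at hall
      obtain ⟨t₀, ht₀⟩ := hall
      have hz : ∀ i, Q *ᵥ u i = 0 := by
        intro i
        have hle : ‖w (e.symm (Sum.inl (1, t₀)))‖ ≤ ‖w i‖ := by
          rw [hwn]
          simp only [one_ne_zero, if_false]
          obtain ⟨q, rfl⟩ := e.symm.surjective i
          rcases q with ⟨b, t⟩ | t
          · rw [hwn]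
            split_ifs
            · linarith
            · exact le_rfl
          · rw [hwr]; exact hlaminv.le
        rcases hdich i (e.symm (Sum.inl (1, t₀))) hle with h1 | h1
        · exact h1
        · exact absurd h1 ht₀
      have h1 := rank_add_card_le Q (hlin id Function.injective_id) hz
      rw [hQk, Fintype.card_fin] at h1
      omega
  · -- middle weight
    by_cases hall : ∀ t : Fin n, Q *ᵥ u (e.symm (Sum.inr t)) = u (e.symm (Sum.inr t))
    · -- the smaller weights are in the image as well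
      have hn : 0 < n := by omega
      have hsm : ∀ t : Fin m, Q *ᵥ u (e.symm (Sum.inl (1, t))) = u (e.symm (Sum.inl (1, t))) := by
        intro t
        have hle : ‖w (e.symm (Sum.inl (1, t)))‖ ≤ ‖w (e.symm (Sum.inr ⟨0, hn⟩))‖ := by
          rw [hwn, hwr]
          simp only [one_ne_zero, if_false]
          exact hlaminv.le
        rcases hdich (e.symm (Sum.inr ⟨0, hn⟩)) (e.symm (Sum.inl (1, t))) hle with h1 | h1
        · exfalso
          rw [hall] at h1
          exact (hlin id Function.injective_id).ne_zero _ h1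
        · exact h1
      have h1 := card_le_rank Q (hlin (fun t : Fin m ⊕ Fin n =>
        Sum.elim (fun t => e.symm (Sum.inl (1, t))) (fun t => e.symm (Sum.inr t)) t) (by
          rintro (s | s) (t | t) hst
          · have := Sum.inl_injective (e.symm.injective hst)
            exact congrArg Sum.inl (congrArg Prod.snd this)
          · have := e.symm.injective hst
            simp at this
          · have := e.symm.injective hst
            simp at this
          · have := Sum.inr_injective (e.symm.injective hst)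
            exact congrArg Sum.inr this)) (by
          rintro (t | t)
          · exact hsm t
          · exact hall t)
      rw [hQk, Fintype.card_sum, Fintype.card_fin, Fintype.card_fin] at h1
      omega
    · push Not at hall
      obtain ⟨t₀, ht₀⟩ := hall
      have hz : ∀ i, 1 ≤ ‖w i‖ → Q *ᵥ u i = 0 := by
        intro i hi
        rcases hdich i (e.symm (Sum.inr t₀)) (by rw [hwr]; exact hi) with h1 | h1
        · exact h1
        · exact absurd h1 ht₀
      have h1 := rank_add_card_le Q (hlin (fun t : Fin m ⊕ Fin n =>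
        Sum.elim (fun t => e.symm (Sum.inl (0, t))) (fun t => e.symm (Sum.inr t)) t) (by
          rintro (s | s) (t | t) hst
          · have := Sum.inl_injective (e.symm.injective hst)
            exact congrArg Sum.inl (congrArg Prod.snd this)
          · have := e.symm.injective hst
            simp at this
          · have := e.symm.injective hst
            simp at this
          · have := Sum.inr_injective (e.symm.injective hst)
            exact congrArg Sum.inr this)) (by
          rintro (t | t)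
          · apply hz
            simp only [Sum.elim_inl]
            rw [hwn]
            simp only [if_true]
            exact hlam1.le
          · apply hz
            simp only [Sum.elim_inr]
            rw [hwr])
      rw [hQk, Fintype.card_sum, Fintype.card_fin, Fintype.card_fin] at h1
      omega
  · -- largest weight
    have hm : 0 < m := by omega
    by_cases hall : ∀ t : Fin m, Q *ᵥ u (e.symm (Sum.inl (0, t))) = u (e.symm (Sum.inl (0, t)))
    · have hz : ∀ i, Q *ᵥ u i = u i := by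
        intro i
        have hle : ‖w i‖ ≤ ‖w (e.symm (Sum.inl (0, ⟨0, hm⟩)))‖ := by
          rw [hwn]
          simp only [if_true]
          obtain ⟨q, rfl⟩ := e.symm.surjective i
          rcases q with ⟨b, t⟩ | t
          · rw [hwn]
            split_ifs
            · exact le_rfl
            · linarith
          · rw [hwr]; exact hlam1.le
        rcases hdich (e.symm (Sum.inl (0, ⟨0, hm⟩))) i hle with h1 | h1
        · exfalso
          rw [hall] at h1
          exact (hlin id Function.injective_id).ne_zero _ h1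
        · exact h1
      have h1 := card_le_rank Q (hlin id Function.injective_id) hz
      rw [hQk, Fintype.card_fin] at h1
      omega
    · push Not at hall
      obtain ⟨t₀, ht₀⟩ := hall
      have hz : ∀ t : Fin m, Q *ᵥ u (e.symm (Sum.inl (0, t))) = 0 := by
        intro t
        rcases hdich (e.symm (Sum.inl (0, t))) (e.symm (Sum.inl (0, t₀))) (by rw [hwn, hwn]) with h1 | h1
        · exact h1
        · exact absurd h1 ht₀
      have h1 := rank_add_card_le Q (hlin (fun t : Fin m => e.symm (Sum.inl (0, t))) (by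
        intro s t hst
        have := Sum.inl_injective (e.symm.injective hst)
        exact congrArg Prod.snd this)) hz
      rw [hQk, Fintype.card_fin] at h1
      omega

end Pool.Agent.R788.SA
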