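import Pool.Agent.Y473.SA.OutFin

/-!
# Finiteness of the set of outer automorphisms with bounded traces
-/

set_option autoImplicit false

open scoped MatrixGroups UpperHalfPlane Matrix
open UpperHalfPlane Pool.Agent.Y473.SA

namespace Pool.Agent.R788.SA

variable {Γ : Subgroup SL(2, ℝ)}

theorem mul_bound {A B : SL(2, ℝ)} {α β : ℝ} (hA : ∀ i j, |A i j| ≤ α) (hB : ∀ i j, |B i j| ≤ β)
    (i j : Fin 2) : |(A * B) i j| ≤ 2 * α * β := by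
  rw [sl_mul_apply]
  have h0 : 0 ≤ α := (abs_nonneg _).trans (hA 0 0)
  have h1 : |A i 0 * B 0 j| ≤ α * β := by
    rw [abs_mul]; exact mul_le_mul (hA _ _) (hB _ _) (abs_nonneg _) h0
  have h2 : |A i 1 * B 1 j| ≤ α * β := by
    rw [abs_mul]; exact mul_le_mul (hA _ _) (hB _ _) (abs_nonneg _) h0
  have := abs_add_le (A i 0 * B 0 j) (A i 1 * B 1 j)
  linarith

theorem exists_bound (A : SL(2, ℝ)) : ∃ α : ℝ, ∀ i j, |A i j| ≤ α := by
  refine ⟨∑ i, ∑ j, |A i j|, fun i j => ?_⟩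
  have h1 : |A i j| ≤ ∑ j, |A i j| :=
    Finset.single_le_sum (f := fun j => |A i j|) (fun _ _ => abs_nonneg _) (Finset.mem_univ j)
  have h2 : ∑ j, |A i j| ≤ ∑ i, ∑ j, |A i j| :=
    Finset.single_le_sum (f := fun i => ∑ j, |A i j|)
      (fun _ _ => Finset.sum_nonneg fun _ _ => abs_nonneg _) (Finset.mem_univ i)
  exact h1.trans h2

theorem cosh_dist_I (g : SL(2, ℝ)) : Real.cosh (dist I (g • I)) =
    ((g 0 0) ^ 2 + (g 0 1) ^ 2 + (g 1 0) ^ 2 + (g 1 1) ^ 2) / 2 := by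
  have hdet := sl_det g
  rw [cosh_dist', smul_im, smul_re]
  simp only [I_re, I_im, mul_zero, zero_add, mul_one, one_pow]
  have hne : (g 1 1) ^ 2 + (g 1 0) ^ 2 ≠ 0 := by
    intro h
    have h1 : g 1 1 = 0 := by nlinarith [sq_nonneg (g 1 1), sq_nonneg (g 1 0)]
    have h2 : g 1 0 = 0 := by nlinarith [sq_nonneg (g 1 1), sq_nonneg (g 1 0)]
    rw [h1, h2] at hdet
    simp at hdet
  field_simp
  have e : (g 0 1 * g 1 1 + g 0 0 * g 1 0) ^ 2 + 1 =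
      ((g 0 0) ^ 2 + (g 0 1) ^ 2) * ((g 1 1) ^ 2 + (g 1 0) ^ 2) := by
    have : (g 0 0 * g 1 1 - g 0 1 * g 1 0) ^ 2 = 1 := by rw [hdet]; norm_num
    linear_combination (-1) * this
  linear_combination e

theorem le_cosh (x : ℝ) : x ≤ 2 * Real.cosh x := by
  rw [Real.cosh_eq]
  have h1 := Real.add_one_le_exp x
  have h2 := Real.exp_pos (-x)
  linarith

/-- There are only finitely many elements of bounded size. -/
theorem finite_entries (hΓ : IsClosedSurface Γ) (M : ℝ) :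
    {g : Γ | ∀ i j, |(g : SL(2, ℝ)) i j| ≤ M}.Finite := by
  refine (hΓ.finite_disp 0 (4 * M ^ 2)).subset ?_
  intro g hg
  refine ⟨I, by simp, ?_⟩
  have h1 := le_cosh (dist I ((g : SL(2, ℝ)) • I))
  rw [cosh_dist_I] at h1
  have h2 : ∀ i j, ((g : SL(2, ℝ)) i j) ^ 2 ≤ M ^ 2 := by
    intro i j
    have := hg i j
    rw [← sq_abs]
    exact pow_le_pow_left₀ (abs_nonneg _) this 2
  have h00 := h2 0 0
  have h01 := h2 0 1
  have h10 := h2 1 0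
  have h11 := h2 1 1
  change dist I ((g : SL(2, ℝ)) • I) ≤ _
  linarith

/-- The translation length is controlled by the trace. -/
theorem length_le_of_tr {g : Γ} {c : UT} {l : ℝ} (hc : act g c = flow l c) :
    Real.exp (l / 2) ≤ |tr g| := by
  obtain ⟨p, rfl⟩ := exists_geod c
  obtain ⟨lam, h1, h00, h11, -, -⟩ := diag_of_axis hc
  have htr : tr g = lam + lam⁻¹ := by rw [← tr_conj p, tr_eq, h00, h11]
  have hlam0 : lam ≠ 0 := by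
    rintro rfl
    rw [zero_pow two_ne_zero] at h1
    exact (Real.exp_pos _).ne h1
  have habs : |tr g| = |lam| + |lam⁻¹| := by
    rw [htr]
    rcases lt_or_gt_of_ne hlam0 with h5 | h5
    · have : lam⁻¹ < 0 := inv_lt_zero.2 h5
      rw [abs_of_neg h5, abs_of_neg this, abs_of_neg (by linarith)]
      ring
    · have : 0 < lam⁻¹ := inv_pos.2 h5
      rw [abs_of_pos h5, abs_of_pos this, abs_of_pos (by linarith)]
  have h2 : |lam| = Real.exp (l / 2) := by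
    have e1 : Real.exp (l / 2) ^ 2 = Real.exp l := by
      rw [sq, ← Real.exp_add, add_halves]
    have e2 : |lam| ^ 2 = Real.exp (l / 2) ^ 2 := by rw [sq_abs, h1, e1]
    exact (sq_eq_sq₀ (abs_nonneg _) (Real.exp_pos _).le).1 e2
  rw [habs, h2]
  linarith [abs_nonneg lam⁻¹]

/-- The trace is controlled by the translation length. -/
theorem tr_le_of_length {g : Γ} {c : UT} {l : ℝ} (hc : act g c = flow l c) :
    |tr g| ≤ Real.exp (l / 2) + Real.exp (-(l / 2)) := by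
  obtain ⟨p, rfl⟩ := exists_geod c
  obtain ⟨lam, h1, h00, h11, -, -⟩ := diag_of_axis hc
  have htr : tr g = lam + lam⁻¹ := by rw [← tr_conj p, tr_eq, h00, h11]
  have h2 : |lam| = Real.exp (l / 2) := by
    have e1 : Real.exp (l / 2) ^ 2 = Real.exp l := by
      rw [sq, ← Real.exp_add, add_halves]
    have e2 : |lam| ^ 2 = Real.exp (l / 2) ^ 2 := by rw [sq_abs, h1, e1]
    exact (sq_eq_sq₀ (abs_nonneg _) (Real.exp_pos _).le).1 e2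
  rw [htr]
  refine (abs_add_le _ _).trans ?_
  rw [abs_inv, h2, Real.exp_neg]

/-- Up to conjugacy there are only finitely many elements of bounded trace. -/
theorem finite_classes (hΓ : IsClosedSurface Γ) (C : ℝ) : ∃ F : Set Γ, F.Finite ∧
    ∀ g : Γ, g ≠ 1 → |tr g| ≤ C → ∃ h : Γ, h * g * h⁻¹ ∈ F := by
  obtain ⟨r, hr0, hr⟩ := hΓ.exists_radius
  refine ⟨_, hΓ.finite_disp r (2 * C), fun g hg hC => ?_⟩
  obtain ⟨c, l, hl, hc⟩ := hΓ.exists_axis hg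
  obtain ⟨h, hh⟩ := hr (c.1 0)
  refine ⟨h, h • c.1 0, hh, ?_⟩
  rw [mul_smul, mul_smul, inv_smul_smul, dist_smul, dist_axis hl hc]
  have h1 := length_le_of_tr hc
  have h2 := Real.add_one_le_exp (l / 2)
  linarith

/-- The off-diagonal entries do not vanish for elements that do not commute. -/
theorem offdiag (hΓ : IsClosedSurface Γ) {x y : Γ} (hxy : x * y * x⁻¹ * y⁻¹ ≠ 1) {p : SL(2, ℝ)}
    {lam : ℝ} (h00 : (p⁻¹ * x * p) 0 0 = lam) (h11 : (p⁻¹ * x * p) 1 1 = lam⁻¹)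
    (h01 : (p⁻¹ * x * p) 0 1 = 0) (h10 : (p⁻¹ * x * p) 1 0 = 0) :
    (p⁻¹ * y * p) 0 1 ≠ 0 ∧ (p⁻¹ * y * p) 1 0 ≠ 0 := by
  obtain ⟨ε, hε, hgap, -⟩ := hΓ.trace_gap
  have h1 := hgap _ hxy
  have hcosh : 1 < Real.cosh (ε / 2) := Real.one_lt_cosh.2 (by positivity)
  obtain ⟨X, hX⟩ : ∃ X : SL(2, ℝ), X = p⁻¹ * x * p := ⟨_, rfl⟩
  obtain ⟨Y, hY⟩ : ∃ Y : SL(2, ℝ), Y = p⁻¹ * y * p := ⟨_, rfl⟩
  rw [← hX] at h00 h11 h01 h10
  rw [← hY]
  have e1 : tr ((x * y * x⁻¹ * y⁻¹ : Γ) : SL(2, ℝ)) = tr (X * Y * X⁻¹ * Y⁻¹) := by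
    rw [← tr_conj p]
    congr 1
    rw [hX, hY]
    push_cast
    group
  have hdX := sl_det X
  have hdY := sl_det Y
  rw [h00, h11, h01, h10] at hdX
  obtain ⟨i1, i2, i3, i4⟩ := sl_inv_apply X
  obtain ⟨j1, j2, j3, j4⟩ := sl_inv_apply Y
  have e2 : tr (X * Y * X⁻¹ * Y⁻¹) = 2 * (Y 0 0 * Y 1 1) - (lam ^ 2 + lam⁻¹ ^ 2) * (Y 0 1 * Y 1 0) := by
    rw [tr_eq]
    simp only [sl_mul_apply, i1, i2, i3, i4, j1, j2, j3, j4, h00, h11, h01, h10]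
    have : lam * lam⁻¹ = 1 := by linarith
    linear_combination (2 * (Y 0 0 * Y 1 1)) * this
  have key : Y 0 1 * Y 1 0 ≠ 0 := by
    intro h0
    rw [e1, e2, h0] at h1
    have : Y 0 0 * Y 1 1 = 1 := by linarith
    rw [this] at h1
    simp at h1
    linarith
  exact ⟨left_ne_zero_of_mul key, right_ne_zero_of_mul key⟩

/-- Powers of a diagonal element. -/
theorem zpow_diag {X : SL(2, ℝ)} {lam : ℝ} (h00 : X 0 0 = lam) (h11 : X 1 1 = lam⁻¹)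
    (h01 : X 0 1 = 0) (h10 : X 1 0 = 0) (n : ℤ) :
    (X ^ n) 0 0 = lam ^ n ∧ (X ^ n) 1 1 = lam⁻¹ ^ n ∧ (X ^ n) 0 1 = 0 ∧ (X ^ n) 1 0 = 0 := by
  have hnat : ∀ n : ℕ, (X ^ n) 0 0 = lam ^ n ∧ (X ^ n) 1 1 = lam⁻¹ ^ n ∧ (X ^ n) 0 1 = 0 ∧
      (X ^ n) 1 0 = 0 := by
    intro n
    induction n with
    | zero => simp
    | succ n ih =>
      obtain ⟨g1, g2, g3, g4⟩ := ih
      rw [pow_succ]
      simp only [sl_mul_apply, g1, g2, g3, g4, h00, h01, h10, h11]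
      refine ⟨by ring, by ring, by ring, by ring⟩
  cases n with
  | ofNat n =>
    have := hnat n
    simpa using this
  | negSucc n =>
    obtain ⟨g1, g2, g3, g4⟩ := hnat (n + 1)
    obtain ⟨i1, i2, i3, i4⟩ := sl_inv_apply (X ^ (n + 1))
    rw [zpow_negSucc, i1, i2, i3, i4, g1, g2, g3, g4, zpow_negSucc, zpow_negSucc]
    refine ⟨?_, ?_, by simp, by simp⟩
    · rw [inv_pow]
    · rw [inv_pow, inv_inv]

/-- The choice of the power. -/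
theorem choice_pow {lam b : ℝ} (hlam : lam ≠ 0) (hD : lam ^ 2 ≠ 1) (hb : b ≠ 0) :
    ∃ n : ℤ, 1 ≤ |lam ^ (2 * n) * b| ∧ |lam ^ (2 * n) * b| ≤ lam ^ 2 + lam⁻¹ ^ 2 := by
  have hb0 : 0 < |b| := abs_pos.2 hb
  have hl2pos : 0 < lam ^ 2 := by positivity
  have habs : ∀ m : ℤ, |lam ^ (2 * m) * b| = (lam ^ 2) ^ m * |b| := by
    intro m
    rw [abs_mul, zpow_mul, abs_of_pos (by positivity), zpow_ofNat]
  have h3 : 0 ≤ lam⁻¹ ^ 2 := by positivity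
  rcases lt_or_gt_of_ne hD with hlt | hgt
  · obtain ⟨m, hm1, hm2⟩ := exists_mem_Ico_zpow hb0 (one_lt_inv_iff₀.2 ⟨hl2pos, hlt⟩)
    have hpos : 0 < (lam ^ 2) ^ m := by positivity
    rw [zpow_add_one₀ (by positivity), inv_zpow] at hm2
    rw [inv_zpow] at hm1
    have hi : (lam ^ 2) ^ m * ((lam ^ 2) ^ m)⁻¹ = 1 := mul_inv_cancel₀ hpos.ne'
    refine ⟨m, ?_, ?_⟩
    · rw [habs, ← hi]
      exact mul_le_mul_of_nonneg_left hm1 hpos.le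
    · rw [habs, inv_pow]
      have h7 : (lam ^ 2) ^ m * |b| ≤ (lam ^ 2) ^ m * (((lam ^ 2) ^ m)⁻¹ * (lam ^ 2)⁻¹) :=
        mul_le_mul_of_nonneg_left hm2.le hpos.le
      rw [← mul_assoc, hi, one_mul] at h7
      linarith
  · obtain ⟨m, hm1, hm2⟩ := exists_mem_Ico_zpow hb0 hgt
    have hpos : 0 < (lam ^ 2) ^ m := by positivity
    have hi : ((lam ^ 2) ^ m)⁻¹ * (lam ^ 2) ^ m = 1 := inv_mul_cancel₀ hpos.ne'
    rw [zpow_add_one₀ (by positivity)] at hm2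
    refine ⟨-m, ?_, ?_⟩
    · rw [habs, zpow_neg, ← hi]
      exact mul_le_mul_of_nonneg_left hm1 (by positivity)
    · rw [habs, zpow_neg]
      have h7 : ((lam ^ 2) ^ m)⁻¹ * |b| ≤ ((lam ^ 2) ^ m)⁻¹ * ((lam ^ 2) ^ m * lam ^ 2) :=
        mul_le_mul_of_nonneg_left hm2.le (by positivity)
      rw [← mul_assoc, hi, one_mul] at h7
      linarith

/-- The entries of the conjugate by a power of a diagonal element. -/
theorem conj_entries {X Y : SL(2, ℝ)} {lam : ℝ} (hlam : lam ≠ 0) (h00 : X 0 0 = lam)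
    (h11 : X 1 1 = lam⁻¹) (h01 : X 0 1 = 0) (h10 : X 1 0 = 0) (n : ℤ) :
    (X ^ n * Y * (X ^ n)⁻¹) 0 0 = Y 0 0 ∧ (X ^ n * Y * (X ^ n)⁻¹) 1 1 = Y 1 1 ∧
      (X ^ n * Y * (X ^ n)⁻¹) 0 1 = lam ^ (2 * n) * Y 0 1 ∧
      lam ^ (2 * n) * (X ^ n * Y * (X ^ n)⁻¹) 1 0 = Y 1 0 := by
  obtain ⟨g1, g2, g3, g4⟩ := zpow_diag h00 h11 h01 h10 n
  obtain ⟨Z, hZ⟩ : ∃ Z : SL(2, ℝ), Z = X ^ n := ⟨_, rfl⟩
  rw [← hZ] at g1 g2 g3 g4 ⊢
  obtain ⟨i1, i2, i3, i4⟩ := sl_inv_apply Z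
  have hi : lam ^ n * lam⁻¹ ^ n = 1 := by
    rw [← mul_zpow, mul_inv_cancel₀ hlam, one_zpow]
  obtain ⟨u, hu⟩ : ∃ u : ℝ, u = lam ^ n := ⟨_, rfl⟩
  obtain ⟨v, hv⟩ : ∃ v : ℝ, v = lam⁻¹ ^ n := ⟨_, rfl⟩
  rw [two_mul, zpow_add₀ hlam]
  rw [← hu, ← hv] at hi
  rw [← hu] at g1
  rw [← hv] at g2
  rw [← hu]
  simp only [sl_mul_apply, i1, i2, i3, i4, g1, g2, g3, g4]
  refine ⟨?_, ?_, ?_, ?_⟩
  · linear_combination (Y 0 0) * hi
  · linear_combination (Y 1 1) * hi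
  · ring
  · linear_combination (Y 1 0 * (u * v + 1)) * hi

/-- The normalisation of the second generator. -/
theorem normal_second (hΓ : IsClosedSurface Γ) {x : Γ} (hx : x ≠ 1) (B : ℝ) : ∃ M : ℝ,
    ∀ y : Γ, x * y * x⁻¹ * y⁻¹ ≠ 1 → |tr y| ≤ B → |tr (x * y : Γ)| ≤ B →
      ∃ n : ℤ, ∀ i j, |((x ^ n * y * (x ^ n)⁻¹ : Γ) : SL(2, ℝ)) i j| ≤ M := by
  obtain ⟨ε, hε, -, hdiag⟩ := hΓ.trace_gap
  obtain ⟨p, lam, hgap, hl1, hl2, h00, h11, h01, h10⟩ := hdiag x hx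
  obtain ⟨α, hα⟩ := exists_bound p
  obtain ⟨α', hα'⟩ := exists_bound p⁻¹
  have hs : 0 < 2 * Real.sinh (ε / 2) := by
    have := Real.sinh_pos_iff.2 (half_pos hε)
    positivity
  have hD : 0 < |lam - lam⁻¹| := lt_of_lt_of_le hs hgap
  have hlam : lam ≠ 0 := by
    rintro rfl
    simp at hD
  set B1 := (B + (|lam| + |lam⁻¹|) * B) / |lam - lam⁻¹| with hB1
  set Λ := lam ^ 2 + lam⁻¹ ^ 2 with hΛ
  set M0 := B1 + Λ + B1 * B1 + 1 with hM0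
  refine ⟨2 * (2 * α * M0) * α', fun y hxy hy1 hy2 => ?_⟩
  have hB : 0 ≤ B := (abs_nonneg _).trans hy1
  have hB1nn : 0 ≤ B1 := by positivity
  obtain ⟨hb, hc⟩ := offdiag hΓ hxy h00 h11 h01 h10
  obtain ⟨X, hX⟩ : ∃ X : SL(2, ℝ), X = p⁻¹ * x * p := ⟨_, rfl⟩
  obtain ⟨Y, hY⟩ : ∃ Y : SL(2, ℝ), Y = p⁻¹ * y * p := ⟨_, rfl⟩
  rw [← hX] at h00 h11 h01 h10
  rw [← hY] at hb hc
  have t1 : tr (y : SL(2, ℝ)) = Y 0 0 + Y 1 1 := by
    rw [← tr_conj p, ← hY, tr_eq]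
  have t2 : tr ((x * y : Γ) : SL(2, ℝ)) = lam * Y 0 0 + lam⁻¹ * Y 1 1 := by
    have : p⁻¹ * ((x * y : Γ) : SL(2, ℝ)) * p = X * Y := by rw [hX, hY]; push_cast; group
    rw [← tr_conj p, this, tr_eq, sl_mul_apply, sl_mul_apply, h00, h01, h10, h11]
    ring
  rw [t1] at hy1
  rw [t2] at hy2
  have ha : |Y 0 0| ≤ B1 := by
    rw [hB1, le_div_iff₀ hD, ← abs_mul]
    have e : Y 0 0 * (lam - lam⁻¹) = (lam * Y 0 0 + lam⁻¹ * Y 1 1) - lam⁻¹ * (Y 0 0 + Y 1 1) := by ring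
    rw [e]
    refine (abs_sub _ _).trans ?_
    rw [abs_mul]
    have h5 : |lam⁻¹| * |Y 0 0 + Y 1 1| ≤ |lam⁻¹| * B := mul_le_mul_of_nonneg_left hy1 (abs_nonneg _)
    have h6 : 0 ≤ |lam| * B := by positivity
    linarith
  have hd : |Y 1 1| ≤ B1 := by
    rw [hB1, le_div_iff₀ hD, ← abs_mul]
    have e : Y 1 1 * (lam - lam⁻¹) = lam * (Y 0 0 + Y 1 1) - (lam * Y 0 0 + lam⁻¹ * Y 1 1) := by ring
    rw [e]
    refine (abs_sub _ _).trans ?_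
    rw [abs_mul]
    have h5 : |lam| * |Y 0 0 + Y 1 1| ≤ |lam| * B := mul_le_mul_of_nonneg_left hy1 (abs_nonneg _)
    have h6 : 0 ≤ |lam⁻¹| * B := by positivity
    linarith
  have hbc : |Y 0 1 * Y 1 0| ≤ B1 * B1 + 1 := by
    have hdY := sl_det Y
    have e : Y 0 1 * Y 1 0 = Y 0 0 * Y 1 1 - 1 := by linarith
    rw [e]
    refine (abs_sub _ _).trans ?_
    rw [abs_mul, abs_one]
    have := mul_le_mul ha hd (abs_nonneg _) hB1nn
    linarith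
  have hne1 : lam ^ 2 ≠ 1 := by
    intro h
    have : lam = lam⁻¹ := by
      field_simp
      exact h
    rw [← this, sub_self, abs_zero] at hD
    exact lt_irrefl _ hD
  obtain ⟨n, hn1, hn2⟩ := choice_pow hlam hne1 hb
  refine ⟨n, ?_⟩
  obtain ⟨z00, z11, z01, z10⟩ := conj_entries (Y := Y) hlam h00 h11 h01 h10 n
  have hconj : ((x ^ n * y * (x ^ n)⁻¹ : Γ) : SL(2, ℝ)) = p * (X ^ n * Y * (X ^ n)⁻¹) * p⁻¹ := by
    have : X ^ n = p⁻¹ * (x : SL(2, ℝ)) ^ n * p := by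
      rw [hX]
      have := conj_zpow (a := p⁻¹) (b := (x : SL(2, ℝ))) (i := n)
      rwa [inv_inv] at this
    rw [this, hY]
    push_cast
    group
  obtain ⟨Z, hZ⟩ : ∃ Z : SL(2, ℝ), Z = X ^ n * Y * (X ^ n)⁻¹ := ⟨_, rfl⟩
  rw [← hZ] at z00 z11 z01 z10 hconj
  rw [hconj]
  have hΛ0 : 0 ≤ Λ := by positivity
  have hBB : 0 ≤ B1 * B1 := by positivity
  have hZ : ∀ i j, |Z i j| ≤ M0 := by
    intro i j
    fin_cases i <;> fin_cases j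
    · change |Z 0 0| ≤ M0
      rw [z00]
      linarith
    · change |Z 0 1| ≤ M0
      rw [z01]
      linarith
    · change |Z 1 0| ≤ M0
      have h8 : |lam ^ (2 * n) * Y 0 1| * |Z 1 0| ≤ B1 * B1 + 1 := by
        rw [← abs_mul]
        have : lam ^ (2 * n) * Y 0 1 * Z 1 0 = Y 0 1 * Y 1 0 := by
          rw [← z10]; ring
        rw [this]
        exact hbc
      have h9 : |Z 1 0| ≤ |lam ^ (2 * n) * Y 0 1| * |Z 1 0| :=
        le_mul_of_one_le_left (abs_nonneg _) hn1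
      linarith
    · change |Z 1 1| ≤ M0
      rw [z11]
      linarith
  exact mul_bound (mul_bound hα hZ) hα'

theorem lin_bound {lam L b u v : ℝ} (hL1 : |lam| ≤ L) (hL2 : |lam⁻¹| ≤ L) (hL3 : 1 ≤ L)
    (hu : |u + v| ≤ b) (hv : |lam * u + lam⁻¹ * v| ≤ b) :
    |u| * |lam - lam⁻¹| ≤ 2 * L * b ∧ |v| * |lam - lam⁻¹| ≤ 2 * L * b := by
  have hb' : 0 ≤ b := (abs_nonneg _).trans hu
  have hLb : b ≤ L * b := le_mul_of_one_le_left hb' hL3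
  constructor
  · rw [← abs_mul]
    have e : u * (lam - lam⁻¹) = (lam * u + lam⁻¹ * v) - lam⁻¹ * (u + v) := by ring
    rw [e]
    refine (abs_sub _ _).trans ?_
    rw [abs_mul]
    have h5 : |lam⁻¹| * |u + v| ≤ L * b := mul_le_mul hL2 hu (abs_nonneg _) (by positivity)
    linarith
  · rw [← abs_mul]
    have e : v * (lam - lam⁻¹) = lam * (u + v) - (lam * u + lam⁻¹ * v) := by ring
    rw [e]
    refine (abs_sub _ _).trans ?_
    rw [abs_mul]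
    have h5 : |lam| * |u + v| ≤ L * b := mul_le_mul hL1 hu (abs_nonneg _) (by positivity)
    linarith

theorem lin_bound2 {lam L B B1 a d u v s t : ℝ} (hL1 : |lam| ≤ L) (hL2 : |lam⁻¹| ≤ L) (hL3 : 1 ≤ L)
    (hB1 : 0 ≤ B1) (hs : |s| ≤ B1) (ht : |t| ≤ B1)
    (h1 : |a * s + d * t + (u + v)| ≤ B)
    (h2 : |lam * (a * s) + lam⁻¹ * (d * t) + (lam * u + lam⁻¹ * v)| ≤ B) :
    |u + v| ≤ B + L * (|a| + |d|) * B1 ∧ |lam * u + lam⁻¹ * v| ≤ B + L * (|a| + |d|) * B1 := by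
  have p1 : |a * s| ≤ |a| * B1 := by
    rw [abs_mul]; exact mul_le_mul_of_nonneg_left hs (abs_nonneg _)
  have p2 : |d * t| ≤ |d| * B1 := by
    rw [abs_mul]; exact mul_le_mul_of_nonneg_left ht (abs_nonneg _)
  have p0 : 0 ≤ |a| * B1 := by positivity
  have p0' : 0 ≤ |d| * B1 := by positivity
  have hL0 : 0 ≤ L := by linarith
  have r1 : |a| * B1 ≤ L * (|a| * B1) := le_mul_of_one_le_left p0 hL3
  have r2 : |d| * B1 ≤ L * (|d| * B1) := le_mul_of_one_le_left p0' hL3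
  have e0 : L * (|a| + |d|) * B1 = L * (|a| * B1) + L * (|d| * B1) := by ring
  rw [e0]
  constructor
  · have e : u + v = (a * s + d * t + (u + v)) - (a * s + d * t) := by ring
    rw [e]
    refine (abs_sub _ _).trans ?_
    have h5 := abs_add_le (a * s) (d * t)
    linarith
  · have e : lam * u + lam⁻¹ * v = (lam * (a * s) + lam⁻¹ * (d * t) + (lam * u + lam⁻¹ * v)) -
      (lam * (a * s) + lam⁻¹ * (d * t)) := by ring
    rw [e]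
    refine (abs_sub _ _).trans ?_
    have h5 := abs_add_le (lam * (a * s)) (lam⁻¹ * (d * t))
    have h6 : |lam * (a * s)| ≤ L * (|a| * B1) := by
      rw [abs_mul]; exact mul_le_mul hL1 p1 (abs_nonneg _) hL0
    have h7 : |lam⁻¹ * (d * t)| ≤ L * (|d| * B1) := by
      rw [abs_mul]; exact mul_le_mul hL2 p2 (abs_nonneg _) hL0
    linarith

/-- The four traces control an element. -/
theorem four_traces (hΓ : IsClosedSurface Γ) {x y : Γ} (hxy : x * y * x⁻¹ * y⁻¹ ≠ 1) (B : ℝ) :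
    ∃ M : ℝ, ∀ z : Γ, |tr z| ≤ B → |tr (x * z : Γ)| ≤ B → |tr (y * z : Γ)| ≤ B →
      |tr (x * y * z : Γ)| ≤ B → ∀ i j, |(z : SL(2, ℝ)) i j| ≤ M := by
  have hx : x ≠ 1 := by
    rintro rfl
    simp at hxy
  obtain ⟨ε, hε, -, hdiag⟩ := hΓ.trace_gap
  obtain ⟨p, lam, hgap, hl1, hl2, h00, h11, h01, h10⟩ := hdiag x hx
  obtain ⟨α, hα⟩ := exists_bound p
  obtain ⟨α', hα'⟩ := exists_bound p⁻¹
  have hs : 0 < 2 * Real.sinh (ε / 2) := by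
    have := Real.sinh_pos_iff.2 (half_pos hε)
    positivity
  have hD : 0 < |lam - lam⁻¹| := lt_of_lt_of_le hs hgap
  have hlam : lam ≠ 0 := by
    rintro rfl
    simp at hD
  obtain ⟨hb, hc⟩ := offdiag hΓ hxy h00 h11 h01 h10
  obtain ⟨X, hX⟩ : ∃ X : SL(2, ℝ), X = p⁻¹ * x * p := ⟨_, rfl⟩
  obtain ⟨Y, hY⟩ : ∃ Y : SL(2, ℝ), Y = p⁻¹ * y * p := ⟨_, rfl⟩
  rw [← hX] at h00 h11 h01 h10
  rw [← hY] at hb hc
  have hb0 : 0 < |Y 0 1| := abs_pos.2 hb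
  have hc0 : 0 < |Y 1 0| := abs_pos.2 hc
  obtain ⟨L, hL1, hL2, hL3⟩ : ∃ L : ℝ, |lam| ≤ L ∧ |lam⁻¹| ≤ L ∧ 1 ≤ L := by
    have h1 := abs_nonneg lam
    have h2 := abs_nonneg lam⁻¹
    exact ⟨1 + |lam| + |lam⁻¹|, by linarith, by linarith, by linarith⟩
  obtain ⟨B1, hB1⟩ : ∃ B1 : ℝ, B1 = 2 * L * B / |lam - lam⁻¹| := ⟨_, rfl⟩
  obtain ⟨B2, hB2⟩ : ∃ B2 : ℝ, B2 = 2 * L * (B + L * (|Y 0 0| + |Y 1 1|) * B1) := ⟨_, rfl⟩
  obtain ⟨M0, hM0⟩ : ∃ M0 : ℝ, M0 = B1 + B2 / (|Y 0 1| * |lam - lam⁻¹|) +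
    B2 / (|Y 1 0| * |lam - lam⁻¹|) := ⟨_, rfl⟩
  refine ⟨2 * (2 * α * M0) * α', fun z hz1 hz2 hz3 hz4 => ?_⟩
  have hB : 0 ≤ B := (abs_nonneg _).trans hz1
  obtain ⟨Z, hZ⟩ : ∃ Z : SL(2, ℝ), Z = p⁻¹ * z * p := ⟨_, rfl⟩
  have t1 : tr (z : SL(2, ℝ)) = Z 0 0 + Z 1 1 := by rw [← tr_conj p, ← hZ, tr_eq]
  have t2 : tr ((x * z : Γ) : SL(2, ℝ)) = lam * Z 0 0 + lam⁻¹ * Z 1 1 := by
    have : p⁻¹ * ((x * z : Γ) : SL(2, ℝ)) * p = X * Z := by rw [hX, hZ]; push_cast; group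
    rw [← tr_conj p, this, tr_eq, sl_mul_apply, sl_mul_apply, h00, h01, h10, h11]
    ring
  have t3 : tr ((y * z : Γ) : SL(2, ℝ)) =
      Y 0 0 * Z 0 0 + Y 1 1 * Z 1 1 + (Y 0 1 * Z 1 0 + Y 1 0 * Z 0 1) := by
    have : p⁻¹ * ((y * z : Γ) : SL(2, ℝ)) * p = Y * Z := by rw [hY, hZ]; push_cast; group
    rw [← tr_conj p, this, tr_eq, sl_mul_apply, sl_mul_apply]
    ring
  have t4 : tr ((x * y * z : Γ) : SL(2, ℝ)) =
      lam * (Y 0 0 * Z 0 0) + lam⁻¹ * (Y 1 1 * Z 1 1) +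
        (lam * (Y 0 1 * Z 1 0) + lam⁻¹ * (Y 1 0 * Z 0 1)) := by
    have : p⁻¹ * ((x * y * z : Γ) : SL(2, ℝ)) * p = X * Y * Z := by
      rw [hX, hY, hZ]; push_cast; group
    rw [← tr_conj p, this, tr_eq]
    simp only [sl_mul_apply, h00, h01, h10, h11]
    ring
  rw [t1] at hz1
  rw [t2] at hz2
  rw [t3] at hz3
  rw [t4] at hz4
  have hB1nn : 0 ≤ B1 := by rw [hB1]; positivity
  obtain ⟨ha, hd⟩ := lin_bound hL1 hL2 hL3 hz1 hz2
  have ha : |Z 0 0| ≤ B1 := by rwa [hB1, le_div_iff₀ hD]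
  have hd : |Z 1 1| ≤ B1 := by rwa [hB1, le_div_iff₀ hD]
  obtain ⟨q1, q2⟩ := lin_bound2 hL1 hL2 hL3 hB1nn ha hd hz3 hz4
  obtain ⟨r1, r2⟩ := lin_bound hL1 hL2 hL3 q1 q2
  have s1 : |Z 1 0| ≤ B2 / (|Y 0 1| * |lam - lam⁻¹|) := by
    rw [le_div_iff₀ (by positivity), hB2]
    rw [abs_mul] at r1
    linarith
  have s2 : |Z 0 1| ≤ B2 / (|Y 1 0| * |lam - lam⁻¹|) := by
    rw [le_div_iff₀ (by positivity), hB2]
    rw [abs_mul] at r2
    linarith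
  have hB2nn : 0 ≤ B2 := by rw [hB2]; positivity
  have n1 : 0 ≤ B2 / (|Y 0 1| * |lam - lam⁻¹|) := by positivity
  have n2 : 0 ≤ B2 / (|Y 1 0| * |lam - lam⁻¹|) := by positivity
  have hZb : ∀ i j, |Z i j| ≤ M0 := by
    intro i j
    rw [hM0]
    fin_cases i <;> fin_cases j
    · change |Z 0 0| ≤ _
      linarith
    · change |Z 0 1| ≤ _
      linarith
    · change |Z 1 0| ≤ _
      linarith
    · change |Z 1 1| ≤ _
      linarith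
  have hconj : (z : SL(2, ℝ)) = p * Z * p⁻¹ := by
    rw [hZ]; group
  rw [hconj]
  exact mul_bound (mul_bound hα hZb) hα'

/-- Only finitely many outer automorphisms satisfy a bound on the traces of the images of all
elements. -/
theorem outFin (hΓ : IsClosedSurface Γ) (C : Γ → ℝ) :
    {q : Out Γ | ∃ φ : MulAut Γ, (φ : Out Γ) = q ∧ ∀ γ, |tr (φ γ)| ≤ C γ}.Finite := by
  obtain ⟨a, b, hab⟩ := hΓ.exists_not_comm
  have ha : a ≠ 1 := by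
    rintro rfl
    simp at hab
  obtain ⟨G, hG, hGtop⟩ := hΓ.exists_gen
  obtain ⟨Fa, hFa, hFa'⟩ := finite_classes hΓ (C a)
  have h2 : ∀ x : Γ, ∃ M : ℝ, x ≠ 1 → ∀ y : Γ, x * y * x⁻¹ * y⁻¹ ≠ 1 →
      |tr y| ≤ max (C b) (C (a * b)) → |tr (x * y : Γ)| ≤ max (C b) (C (a * b)) →
      ∃ n : ℤ, ∀ i j, |((x ^ n * y * (x ^ n)⁻¹ : Γ) : SL(2, ℝ)) i j| ≤ M := by
    intro x
    by_cases hx : x = 1
    · exact ⟨0, fun h => absurd hx h⟩
    · obtain ⟨M, hM⟩ := normal_second hΓ hx (max (C b) (C (a * b)))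
      exact ⟨M, fun _ => hM⟩
  choose Mb hMb using h2
  have h3 : ∀ x y s : Γ, ∃ M : ℝ, x * y * x⁻¹ * y⁻¹ ≠ 1 → ∀ z : Γ,
      |tr z| ≤ C s + C (a * s) + C (b * s) + C (a * b * s) + |C s| + |C (a * s)| + |C (b * s)| +
        |C (a * b * s)| → 
      |tr (x * z : Γ)| ≤ C s + C (a * s) + C (b * s) + C (a * b * s) + |C s| + |C (a * s)| +
        |C (b * s)| + |C (a * b * s)| → 
      |tr (y * z : Γ)| ≤ C s + C (a * s) + C (b * s) + C (a * b * s) + |C s| + |C (a * s)| +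
        |C (b * s)| + |C (a * b * s)| → 
      |tr (x * y * z : Γ)| ≤ C s + C (a * s) + C (b * s) + C (a * b * s) + |C s| + |C (a * s)| +
        |C (b * s)| + |C (a * b * s)| → 
      ∀ i j, |(z : SL(2, ℝ)) i j| ≤ M := by
    intro x y s
    by_cases hxy : x * y * x⁻¹ * y⁻¹ = 1
    · exact ⟨0, fun h => absurd hxy h⟩
    · obtain ⟨M, hM⟩ := four_traces hΓ hxy _
      exact ⟨M, fun _ => hM⟩
  choose Ms hMs using h3
  set Fb : Γ → Set Γ := fun x => {g : Γ | ∀ i j, |(g : SL(2, ℝ)) i j| ≤ Mb x} with hFb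
  set 𝒯 : Set (MulAut Γ) := ⋃ x ∈ Fa, ⋃ y ∈ Fb x, {φ : MulAut Γ | ∀ s ∈ G,
    φ s ∈ {g : Γ | ∀ i j, |(g : SL(2, ℝ)) i j| ≤ Ms x y s}} with h𝒯
  have h𝒯fin : 𝒯.Finite := by
    refine hFa.biUnion fun x _ => (finite_entries hΓ _).biUnion fun y _ => ?_
    have hpi : {f : G → Γ | ∀ s : G, f s ∈ {g : Γ | ∀ i j, |(g : SL(2, ℝ)) i j| ≤ Ms x y s}}.Finite := by
      have : Finite G := hG
      exact Set.Finite.pi' fun s => finite_entries hΓ _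
    refine Set.Finite.of_finite_image (f := fun (φ : MulAut Γ) (s : G) => φ s) (hpi.subset ?_) ?_
    · rintro _ ⟨φ, hφ, rfl⟩ s
      exact hφ s s.2
    · intro φ _ ψ _ h
      have h4 : φ.toMonoidHom = ψ.toMonoidHom := by
        apply MonoidHom.eq_of_eqOn_dense hGtop
        intro s hs
        exact congrFun h ⟨s, hs⟩
      ext1 g
      exact DFunLike.congr_fun h4 g
  refine (h𝒯fin.image fun φ : MulAut Γ => (φ : Out Γ)).subset ?_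
  rintro _ ⟨φ, rfl, hφ⟩
  -- conjugation invariance of the traces
  have hconj : ∀ (h g : Γ), |tr (h * g * h⁻¹ : Γ)| = |tr g| := by
    intro h g
    have := tr_conj (h⁻¹ : SL(2, ℝ)) g
    rw [inv_inv] at this
    push_cast
    rw [this]
  obtain ⟨h, hh⟩ := hFa' (φ a) ((map_ne_one_iff φ φ.injective).2 ha) (hφ a)
  set φ₁ : MulAut Γ := MulAut.conj h * φ with hφ₁
  have hφ₁app : ∀ γ, φ₁ γ = h * φ γ * h⁻¹ := fun γ => rfl
  set x := φ₁ a with hx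
  have hxF : x ∈ Fa := hh
  have hxne : x ≠ 1 := (map_ne_one_iff φ₁ φ₁.injective).2 ha
  have hcomm : ∀ ψ : MulAut Γ, ψ a * ψ b * (ψ a)⁻¹ * (ψ b)⁻¹ ≠ 1 := by
    intro ψ
    rw [← map_inv, ← map_inv, ← map_mul, ← map_mul, ← map_mul]
    exact (map_ne_one_iff ψ ψ.injective).2 hab
  have htr1 : ∀ γ, |tr (φ₁ γ)| ≤ C γ := by
    intro γ
    rw [hφ₁app, hconj]
    exact hφ γ
  obtain ⟨n, hn⟩ := hMb x hxne (φ₁ b) (hcomm φ₁) ((htr1 b).trans (le_max_left _ _)) (by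
    rw [hx, ← map_mul]
    exact (htr1 _).trans (le_max_right _ _))
  set φ₂ : MulAut Γ := MulAut.conj (x ^ n) * φ₁ with hφ₂
  have hφ₂app : ∀ γ, φ₂ γ = x ^ n * φ₁ γ * (x ^ n)⁻¹ := fun γ => rfl
  have htr2 : ∀ γ, |tr (φ₂ γ)| ≤ C γ := by
    intro γ
    rw [hφ₂app, hconj]
    exact htr1 γ
  have hx2 : φ₂ a = x := by
    rw [hφ₂app, ← hx]
    group
  set y := φ₂ b with hy
  have hyF : y ∈ Fb x := hn
  have hxy : x * y * x⁻¹ * y⁻¹ ≠ 1 := by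
    have := hcomm φ₂
    rwa [hx2, ← hy] at this
  refine ⟨φ₂, ?_, ?_⟩
  · rw [h𝒯]
    simp only [Set.mem_iUnion]
    refine ⟨x, hxF, y, hyF, ?_⟩
    intro s _
    have e1 := htr2 s
    have e2 := htr2 (a * s)
    have e3 := htr2 (b * s)
    have e4 := htr2 (a * b * s)
    rw [map_mul, hx2] at e2
    rw [map_mul, ← hy] at e3
    rw [map_mul, map_mul, hx2, ← hy] at e4
    have c1 : 0 ≤ C s := (abs_nonneg _).trans e1
    have c2 : 0 ≤ C (a * s) := (abs_nonneg _).trans e2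
    have c3 : 0 ≤ C (b * s) := (abs_nonneg _).trans e3
    have c4 : 0 ≤ C (a * b * s) := (abs_nonneg _).trans e4
    have d1 := abs_nonneg (C s)
    have d2 := abs_nonneg (C (a * s))
    have d3 := abs_nonneg (C (b * s))
    have d4 := abs_nonneg (C (a * b * s))
    exact hMs x y s hxy (φ₂ s) (by linarith) (by linarith) (by linarith) (by linarith)
  · have e : φ₂ = MulAut.conj (x ^ n * h) * φ := by
      rw [hφ₂, hφ₁, ← mul_assoc, ← map_mul]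
    rw [e]
    change ((MulAut.conj (x ^ n * h) * φ : MulAut Γ) : Out Γ) = (φ : Out Γ)
    generalize x ^ n * h = w
    rw [QuotientGroup.eq]
    refine ⟨(φ⁻¹ w)⁻¹, ?_⟩
    ext1 g
    change (φ⁻¹ w)⁻¹ * g * (φ⁻¹ w)⁻¹⁻¹ = φ⁻¹ (w⁻¹ * φ g * w)
    rw [inv_inv, map_mul, map_mul, map_inv, MulAut.inv_apply_self]

end Pool.Agent.R788.SA
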