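import Pool.Agent.R788.SA.Growth

/-!
# Complete reducibility of the representations `η ⊕ ⋯ ⊕ η ⊕ 1`
-/

set_option autoImplicit false

open scoped MatrixGroups UpperHalfPlane Matrix
open UpperHalfPlane Pool.Agent.Y473.SA

namespace Pool.Agent.R788.SA

variable {Γ : Subgroup SL(2, ℝ)}

/-- The complex matrix of an element of `SL(2, ℝ)`. -/
noncomputable def cm (g : SL(2, ℝ)) : Matrix (Fin 2) (Fin 2) ℂ :=
  (g : Matrix (Fin 2) (Fin 2) ℝ).map Complex.ofRealHom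

theorem cm_mul (g h : SL(2, ℝ)) : cm (g * h) = cm g * cm h := by
  rw [cm, Matrix.SpecialLinearGroup.coe_mul, Matrix.map_mul]; rfl

theorem cm_one : cm 1 = 1 := by
  rw [cm, Matrix.SpecialLinearGroup.coe_one, Matrix.map_one _ (map_zero _) (map_one _)]

theorem cm_apply (g : SL(2, ℝ)) (i j : Fin 2) : cm g i j = ((g i j : ℝ) : ℂ) := rfl

/-- The algebra homomorphism `(X, c) ↦ X ⊕ ⋯ ⊕ X ⊕ c`. -/
noncomputable def beta {m n d : ℕ} (e : Fin d ≃ (Fin 2 × Fin m) ⊕ Fin n) :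
    Matrix (Fin 2) (Fin 2) ℂ × ℂ →ₐ[ℂ] Matrix (Fin d) (Fin d) ℂ where
  toFun X := (Matrix.fromBlocks (Matrix.blockDiagonal fun _ : Fin m => X.1) 0 0
    (X.2 • (1 : Matrix (Fin n) (Fin n) ℂ))).submatrix e e
  map_one' := by
    have : (fun _ : Fin m => (1 : Matrix (Fin 2) (Fin 2) ℂ)) = 1 := rfl
    simp only [Prod.fst_one, Prod.snd_one, one_smul]
    rw [this, Matrix.blockDiagonal_one, Matrix.fromBlocks_one, Matrix.submatrix_one_equiv]
  map_mul' X Y := by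
    rw [Matrix.submatrix_mul_equiv, Matrix.fromBlocks_multiply]
    simp only [Matrix.mul_zero, Matrix.zero_mul, add_zero, zero_add,
      ← Matrix.blockDiagonal_mul, Prod.fst_mul, Prod.snd_mul, Matrix.smul_mul, Matrix.one_mul, smul_smul]
  map_zero' := by
    have : (fun _ : Fin m => (0 : Matrix (Fin 2) (Fin 2) ℂ)) = 0 := rfl
    simp only [Prod.fst_zero, Prod.snd_zero, zero_smul]
    rw [this, Matrix.blockDiagonal_zero, Matrix.fromBlocks_zero]
    rfl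
  map_add' X Y := by
    have : (fun _ : Fin m => (X + Y).1) = (fun _ : Fin m => X.1) + fun _ : Fin m => Y.1 := rfl
    have h2 : Matrix.fromBlocks ((Matrix.blockDiagonal fun _ : Fin m => X.1) +
        Matrix.blockDiagonal fun _ : Fin m => Y.1) 0 0 ((X + Y).2 • (1 : Matrix (Fin n) (Fin n) ℂ)) =
        Matrix.fromBlocks (Matrix.blockDiagonal fun _ : Fin m => X.1) 0 0
          (X.2 • (1 : Matrix (Fin n) (Fin n) ℂ)) +
        Matrix.fromBlocks (Matrix.blockDiagonal fun _ : Fin m => Y.1) 0 0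
          (Y.2 • (1 : Matrix (Fin n) (Fin n) ℂ)) := by
      rw [Matrix.fromBlocks_add, Prod.snd_add, add_smul, add_zero, add_zero]
    rw [this, Matrix.blockDiagonal_add, h2]
    rfl
  commutes' r := by
    have h1 : (fun _ : Fin m => (algebraMap ℂ (Matrix (Fin 2) (Fin 2) ℂ × ℂ) r).1) =
        r • (1 : Fin m → Matrix (Fin 2) (Fin 2) ℂ) := by
      funext _
      rw [Pi.smul_apply, Pi.one_apply, ← Algebra.algebraMap_eq_smul_one]
      rfl
    have h2 : (algebraMap ℂ (Matrix (Fin 2) (Fin 2) ℂ × ℂ) r).2 = r := rfl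
    have h3 : Matrix.fromBlocks (r • (1 : Matrix (Fin 2 × Fin m) (Fin 2 × Fin m) ℂ)) 0 0
        (r • (1 : Matrix (Fin n) (Fin n) ℂ)) = r • 1 := by
      have := Matrix.fromBlocks_smul r (1 : Matrix (Fin 2 × Fin m) (Fin 2 × Fin m) ℂ) 0 0
        (1 : Matrix (Fin n) (Fin n) ℂ)
      rw [Matrix.fromBlocks_one, smul_zero, smul_zero] at this
      exact this.symm
    rw [h1, h2, Matrix.blockDiagonal_smul, Matrix.blockDiagonal_one, h3, Matrix.submatrix_smul]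
    rw [Pi.smul_apply, Pi.smul_apply, Matrix.submatrix_one_equiv, Algebra.algebraMap_eq_smul_one]

theorem beta_apply {m n d : ℕ} (e : Fin d ≃ (Fin 2 × Fin m) ⊕ Fin n)
    (X : Matrix (Fin 2) (Fin 2) ℂ × ℂ) : beta e X =
      (Matrix.fromBlocks (Matrix.blockDiagonal fun _ : Fin m => X.1) 0 0
        (X.2 • (1 : Matrix (Fin n) (Fin n) ℂ))).submatrix e e := rfl

theorem beta_cm {m n d : ℕ} (e : Fin d ≃ (Fin 2 × Fin m) ⊕ Fin n) (g : SL(2, ℝ)) :
    beta e (cm g, 1) = (R0 e g : Matrix (Fin d) (Fin d) ℂ) := by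
  rw [beta_apply, R0_coe, blk, one_smul]
  rfl

theorem conjTranspose_R0 {m n d : ℕ} (e : Fin d ≃ (Fin 2 × Fin m) ⊕ Fin n) (g : SL(2, ℝ)) :
    (R0 e g : Matrix (Fin d) (Fin d) ℂ)ᴴ = beta e ((cm g)ᵀ, 1) := by
  rw [← beta_cm, beta_apply, beta_apply, Matrix.conjTranspose_submatrix,
    Matrix.fromBlocks_conjTranspose, Matrix.blockDiagonal_conjTranspose, one_smul,
    Matrix.conjTranspose_zero, Matrix.conjTranspose_zero, Matrix.conjTranspose_one]
  congr 4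
  funext _
  ext i j
  simp [cm]

/-- A subalgebra of `M₂(ℂ) × ℂ` that contains the elements `(γ, 1)` is everything. -/
theorem subalgebra_top (hΓ : IsClosedSurface Γ) (S : Subalgebra ℂ (Matrix (Fin 2) (Fin 2) ℂ × ℂ))
    (hS : ∀ γ : Γ, (cm γ, (1 : ℂ)) ∈ S) : S = ⊤ := by
  obtain ⟨x, y, hxy⟩ := hΓ.exists_not_comm
  have hx : x ≠ 1 := by
    rintro rfl
    simp at hxy
  obtain ⟨ε, hε, hgap, hdiag⟩ := hΓ.trace_gap
  obtain ⟨p, lam, hlam1, -, -, h00, h11, h01, h10⟩ := hdiag x hx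
  have hs : 0 < 2 * Real.sinh (ε / 2) := by
    have := Real.sinh_pos_iff.2 (half_pos hε)
    positivity
  have hD : 0 < |lam - lam⁻¹| := lt_of_lt_of_le hs hlam1
  have hlam : lam ≠ 0 := by
    rintro rfl
    simp at hD
  have hD' : lam - lam⁻¹ ≠ 0 := abs_pos.1 hD
  obtain ⟨hb, hc⟩ := offdiag hΓ hxy h00 h11 h01 h10
  obtain ⟨X, hX⟩ : ∃ X : SL(2, ℝ), X = p⁻¹ * x * p := ⟨_, rfl⟩
  obtain ⟨Y, hY⟩ : ∃ Y : SL(2, ℝ), Y = p⁻¹ * y * p := ⟨_, rfl⟩
  rw [← hX] at h00 h11 h01 h10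
  rw [← hY] at hb hc
  have hxp : (x : SL(2, ℝ)) = p * X * p⁻¹ := by rw [hX]; group
  have hyp : (y : SL(2, ℝ)) = p * Y * p⁻¹ := by rw [hY]; group
  have hPQ : cm p⁻¹ * cm p = 1 := by rw [← cm_mul, inv_mul_cancel, cm_one]
  have hQP : cm p * cm p⁻¹ = 1 := by rw [← cm_mul, mul_inv_cancel, cm_one]
  -- the trace
  have htr : lam + lam⁻¹ ≠ 2 := by
    intro h
    have h1 := hgap x hx
    have h2 : tr (x : SL(2, ℝ)) = lam + lam⁻¹ := by
      rw [← tr_conj p, ← hX, tr_eq, h00, h11]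
    rw [h2, h] at h1
    have hcosh : 1 < Real.cosh (ε / 2) := Real.one_lt_cosh.2 (by positivity)
    norm_num at h1
    linarith
  -- the idempotent `(0, 1)`
  have hone : (1 : Matrix (Fin 2) (Fin 2) ℂ × ℂ) ∈ S := S.one_mem
  have hCH : cm X * cm X - ((lam + lam⁻¹ : ℝ) : ℂ) • cm X + 1 = 0 := by
    have hl : (lam : ℂ) * (lam : ℂ)⁻¹ = 1 := mul_inv_cancel₀ (by exact_mod_cast hlam)
    ext i j
    fin_cases i <;> fin_cases j
    · simp [Matrix.mul_apply, Fin.sum_univ_two, cm_apply, h00, h01]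
      linear_combination (-1) * hl
    · simp [Matrix.mul_apply, Fin.sum_univ_two, cm_apply, h01]
    · simp [Matrix.mul_apply, Fin.sum_univ_two, cm_apply, h10]
    · simp [Matrix.mul_apply, Fin.sum_univ_two, cm_apply, h11, h01]
      linear_combination (-1) * hl
  have hCHx : cm x * cm x - ((lam + lam⁻¹ : ℝ) : ℂ) • cm x + 1 = 0 := by
    have : cm x * cm x - ((lam + lam⁻¹ : ℝ) : ℂ) • cm x + 1 =
        cm p * (cm X * cm X - ((lam + lam⁻¹ : ℝ) : ℂ) • cm X + 1) * cm p⁻¹ := by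
      rw [hxp, cm_mul, cm_mul]
      rw [Matrix.mul_add, Matrix.mul_sub, Matrix.add_mul, Matrix.sub_mul, Matrix.mul_one, hQP,
        Matrix.mul_smul, Matrix.smul_mul]
      have : cm p * cm X * cm p⁻¹ * (cm p * cm X * cm p⁻¹) = cm p * (cm X * cm X) * cm p⁻¹ := by
        rw [show cm p * cm X * cm p⁻¹ * (cm p * cm X * cm p⁻¹) =
          cm p * cm X * (cm p⁻¹ * cm p) * cm X * cm p⁻¹ by simp only [Matrix.mul_assoc], hPQ]
        simp only [Matrix.mul_assoc, Matrix.mul_one, Matrix.one_mul]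
      rw [this]
    rw [this, hCH]
    simp
  have h01S : ((0 : Matrix (Fin 2) (Fin 2) ℂ), (1 : ℂ)) ∈ S := by
    have h1 : (cm x, (1 : ℂ)) * (cm x, 1) - ((lam + lam⁻¹ : ℝ) : ℂ) • (cm x, (1 : ℂ)) + 1 ∈ S :=
      S.add_mem (S.sub_mem (S.mul_mem (hS x) (hS x)) (S.smul_mem (hS x) _)) hone
    have h2 : (cm x, (1 : ℂ)) * (cm x, 1) - ((lam + lam⁻¹ : ℝ) : ℂ) • (cm x, (1 : ℂ)) + 1 =
        (0, 2 - ((lam + lam⁻¹ : ℝ) : ℂ)) := by
      apply Prod.ext
      · exact hCHx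
      · simp only [Prod.snd_add, Prod.snd_sub, Prod.snd_mul, Prod.smul_snd, Prod.snd_one, smul_eq_mul]
        ring
    rw [h2] at h1
    have h3 : (2 - ((lam + lam⁻¹ : ℝ) : ℂ)) ≠ 0 := by
      rw [sub_ne_zero]
      intro h
      apply htr
      exact_mod_cast h.symm
    have h4 := S.smul_mem h1 (2 - ((lam + lam⁻¹ : ℝ) : ℂ))⁻¹
    have h5 : (2 - ((lam + lam⁻¹ : ℝ) : ℂ))⁻¹ • ((0 : Matrix (Fin 2) (Fin 2) ℂ), 2 - ((lam + lam⁻¹ : ℝ) : ℂ)) =
        (0, 1) := by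
      rw [Prod.smul_mk, smul_zero, smul_eq_mul, inv_mul_cancel₀ h3]
    rwa [h5] at h4
  have h10S : ((1 : Matrix (Fin 2) (Fin 2) ℂ), (0 : ℂ)) ∈ S := by
    have h1 := S.sub_mem hone h01S
    have h2 : (1 : Matrix (Fin 2) (Fin 2) ℂ × ℂ) - (0, 1) = (1, 0) := by
      apply Prod.ext <;> simp
    rwa [h2] at h1
  -- matrices
  have hγS : ∀ γ : Γ, (cm γ, (0 : ℂ)) ∈ S := by
    intro γ
    have h1 := S.mul_mem (hS γ) h10S
    have h2 : (cm γ, (1 : ℂ)) * (1, 0) = (cm γ, 0) := by apply Prod.ext <;> simp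
    rwa [h2] at h1
  obtain ⟨E, hE⟩ : ∃ E : Fin 2 → Fin 2 → Matrix (Fin 2) (Fin 2) ℂ,
    E = fun i j => cm p * Matrix.single i j 1 * cm p⁻¹ := ⟨_, rfl⟩
  have hX1 : cm X - ((lam⁻¹ : ℝ) : ℂ) • 1 = ((lam - lam⁻¹ : ℝ) : ℂ) • Matrix.single 0 0 1 := by
    ext i j
    fin_cases i <;> fin_cases j
    · simp [cm_apply, h00, Matrix.single]
    · simp [cm_apply, h01, Matrix.single]
    · simp [cm_apply, h10, Matrix.single]
    · simp [cm_apply, h11, Matrix.single]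
  have hE00 : (E 0 0, (0 : ℂ)) ∈ S := by
    have h1 : (cm x - ((lam⁻¹ : ℝ) : ℂ) • 1, (0 : ℂ)) ∈ S := by
      have := S.sub_mem (hγS x) (S.smul_mem h10S ((lam⁻¹ : ℝ) : ℂ))
      have h2 : (cm x, (0 : ℂ)) - ((lam⁻¹ : ℝ) : ℂ) • ((1 : Matrix (Fin 2) (Fin 2) ℂ), (0 : ℂ)) =
        (cm x - ((lam⁻¹ : ℝ) : ℂ) • 1, (0 : ℂ)) := by apply Prod.ext <;> simp
      rwa [h2] at this
    have h2 : cm x - ((lam⁻¹ : ℝ) : ℂ) • 1 = ((lam - lam⁻¹ : ℝ) : ℂ) • E 0 0 := by
      rw [hE]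
      simp only
      rw [← Matrix.smul_mul, ← Matrix.mul_smul, ← hX1, Matrix.mul_sub, Matrix.sub_mul, Matrix.mul_smul,
        Matrix.smul_mul, Matrix.mul_one, hQP, hxp, cm_mul, cm_mul]
    rw [h2] at h1
    have h3 := S.smul_mem h1 (((lam - lam⁻¹ : ℝ) : ℂ))⁻¹
    rw [Prod.smul_mk, smul_smul, smul_zero, inv_mul_cancel₀ (by exact_mod_cast hD'), one_smul] at h3
    exact h3
  have hE11 : (E 1 1, (0 : ℂ)) ∈ S := by
    have h1 := S.sub_mem h10S hE00
    have h2 : (1 : Matrix (Fin 2) (Fin 2) ℂ) - E 0 0 = E 1 1 := by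
      have h3 : (1 : Matrix (Fin 2) (Fin 2) ℂ) - Matrix.single 0 0 1 = Matrix.single 1 1 1 := by
        ext i j
        fin_cases i <;> fin_cases j <;> simp [Matrix.single]
      rw [hE]
      simp only
      rw [← h3, Matrix.mul_sub, Matrix.sub_mul, Matrix.mul_one, hQP]
    rwa [Prod.mk_sub_mk, h2, sub_zero] at h1
  have hmid : ∀ i j : Fin 2, E i i * cm y * E j j = ((Y i j : ℝ) : ℂ) • E i j := by
    intro i j
    rw [hE, hyp, cm_mul, cm_mul]
    simp only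
    have h1 : (Matrix.single i i (1 : ℂ)) * cm Y * Matrix.single j j 1 =
        ((Y i j : ℝ) : ℂ) • Matrix.single i j 1 := by
      ext a b
      fin_cases i <;> fin_cases j <;> fin_cases a <;> fin_cases b <;>
        simp [Matrix.mul_apply, Fin.sum_univ_two, Matrix.single, cm_apply]
    rw [← Matrix.smul_mul, ← Matrix.mul_smul, ← h1]
    rw [show cm p * Matrix.single i i 1 * cm p⁻¹ * (cm p * cm Y * cm p⁻¹) *
      (cm p * Matrix.single j j 1 * cm p⁻¹) = cm p * Matrix.single i i 1 * (cm p⁻¹ * cm p) * cm Y *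
        (cm p⁻¹ * cm p) * Matrix.single j j 1 * cm p⁻¹ by simp only [Matrix.mul_assoc], hPQ]
    simp only [Matrix.mul_assoc, Matrix.one_mul]
  have hoff : ∀ i j : Fin 2, Y i j ≠ 0 → (E i i, (0 : ℂ)) ∈ S → (E j j, (0 : ℂ)) ∈ S →
      (E i j, (0 : ℂ)) ∈ S := by
    intro i j hij hi hj
    have h1 := S.mul_mem (S.mul_mem hi (hγS y)) hj
    rw [Prod.mk_mul_mk, Prod.mk_mul_mk, hmid, mul_zero] at h1
    have h3 := S.smul_mem h1 (((Y i j : ℝ) : ℂ))⁻¹
    rw [Prod.smul_mk, smul_smul, smul_zero, inv_mul_cancel₀ (by exact_mod_cast hij), one_smul] at h3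
    exact h3
  have hE01 := hoff 0 1 hb hE00 hE11
  have hE10 := hoff 1 0 hc hE11 hE00
  rw [eq_top_iff]
  rintro ⟨Z, c⟩ -
  have hZ : (Z, (0 : ℂ)) ∈ S := by
    obtain ⟨W, hW⟩ : ∃ W, W = cm p⁻¹ * Z * cm p := ⟨_, rfl⟩
    have h1 : Z = W 0 0 • E 0 0 + W 0 1 • E 0 1 + W 1 0 • E 1 0 + W 1 1 • E 1 1 := by
      have h2 : W = W 0 0 • Matrix.single 0 0 1 + W 0 1 • Matrix.single 0 1 1 +
          W 1 0 • Matrix.single 1 0 1 + W 1 1 • Matrix.single 1 1 1 := by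
        ext i j
        fin_cases i <;> fin_cases j <;> simp [Matrix.single]
      have h3 : Z = cm p * W * cm p⁻¹ := by
        rw [hW, show cm p * (cm p⁻¹ * Z * cm p) * cm p⁻¹ = (cm p * cm p⁻¹) * Z * (cm p * cm p⁻¹) by
          simp only [Matrix.mul_assoc], hQP, Matrix.one_mul, Matrix.mul_one]
      have h4 : cm p * (W 0 0 • Matrix.single 0 0 1 + W 0 1 • Matrix.single 0 1 1 +
          W 1 0 • Matrix.single 1 0 1 + W 1 1 • Matrix.single 1 1 1) * cm p⁻¹ =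
          W 0 0 • E 0 0 + W 0 1 • E 0 1 + W 1 0 • E 1 0 + W 1 1 • E 1 1 := by
        rw [hE]
        simp only [Matrix.mul_add, Matrix.add_mul, Matrix.mul_smul, Matrix.smul_mul]
      rw [← h4, ← h2]
      exact h3
    have h5 := S.add_mem (S.add_mem (S.add_mem (S.smul_mem hE00 (W 0 0)) (S.smul_mem hE01 (W 0 1)))
      (S.smul_mem hE10 (W 1 0))) (S.smul_mem hE11 (W 1 1))
    simp only [Prod.smul_mk, smul_zero, Prod.mk_add_mk, add_zero] at h5
    rwa [h1]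
  have hc' := S.smul_mem h01S c
  have h6 := S.add_mem hZ hc'
  rw [Prod.smul_mk, smul_zero, Prod.mk_add_mk, add_zero, zero_add, smul_eq_mul, mul_one] at h6
  exact h6

/-- The representation `η ⊕ ⋯ ⊕ η ⊕ 1`. -/
noncomputable def rho {m n d : ℕ} (Γ : Subgroup SL(2, ℝ)) (e : Fin d ≃ (Fin 2 × Fin m) ⊕ Fin n) :
    Rep Γ d := ⟨fun γ => R0 e γ, fun x y => by simp⟩

/-- The representation `η ⊕ ⋯ ⊕ η ⊕ 1` is completely reducible. -/
theorem rho_red (hΓ : IsClosedSurface Γ) {m n d : ℕ} (e : Fin d ≃ (Fin 2 × Fin m) ⊕ Fin n) :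
    IsCompletelyReducible (rho Γ e) := by
  intro W hW
  -- `W` is invariant under the conjugate transposes
  have hinv : ∀ X : Matrix (Fin 2) (Fin 2) ℂ × ℂ, ∀ w ∈ W, beta e X *ᵥ w ∈ W := by
    let S : Subalgebra ℂ (Matrix (Fin 2) (Fin 2) ℂ × ℂ) :=
      { carrier := {X | ∀ w ∈ W, beta e X *ᵥ w ∈ W}
        mul_mem' := by
          intro X Y hX hY w hw
          rw [map_mul, ← Matrix.mulVec_mulVec]
          exact hX _ (hY _ hw)
        add_mem' := by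
          intro X Y hX hY w hw
          rw [map_add, Matrix.add_mulVec]
          exact W.add_mem (hX _ hw) (hY _ hw)
        algebraMap_mem' := by
          intro r w hw
          rw [AlgHom.commutes, Algebra.algebraMap_eq_smul_one, Matrix.smul_mulVec, Matrix.one_mulVec]
          exact W.smul_mem _ hw }
    have hS : S = ⊤ := by
      apply subalgebra_top hΓ
      intro γ w hw
      rw [beta_cm]
      exact hW γ w hw
    intro X
    have : X ∈ S := by rw [hS]; exact Algebra.mem_top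
    exact this
  let L : EuclideanSpace ℂ (Fin d) ≃ₗ[ℂ] (Fin d → ℂ) := WithLp.linearEquiv 2 ℂ (Fin d → ℂ)
  let K : Submodule ℂ (EuclideanSpace ℂ (Fin d)) := W.comap L.toLinearMap
  refine ⟨Kᗮ.map L.toLinearMap, ?_, ?_⟩
  · rintro γ _ ⟨v, hv, rfl⟩
    refine ⟨L.symm ((rho Γ e).1 γ *ᵥ L v), ?_, L.apply_symm_apply _⟩
    rw [SetLike.mem_coe, Submodule.mem_orthogonal] at hv ⊢
    intro u hu
    have hu' : L u ∈ W := hu
    have h1 : (rho Γ e).1 γ = R0 e γ := rfl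
    have h2 : L.symm ((R0 e γ : Matrix (Fin d) (Fin d) ℂ)ᴴ *ᵥ L u) ∈ K := by
      change L (L.symm _) ∈ W
      rw [L.apply_symm_apply, conjTranspose_R0]
      exact hinv _ _ hu'
    have h3 := hv _ h2
    rw [EuclideanSpace.inner_eq_star_dotProduct] at h3 ⊢
    rw [h1]
    change (L v) ⬝ᵥ star ((R0 e γ : Matrix (Fin d) (Fin d) ℂ)ᴴ *ᵥ L u) = 0 at h3
    change ((R0 e γ : Matrix (Fin d) (Fin d) ℂ) *ᵥ L v) ⬝ᵥ star (L u) = 0
    rw [Matrix.star_mulVec, Matrix.conjTranspose_conjTranspose] at h3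
    rw [dotProduct_comm, Matrix.dotProduct_mulVec, dotProduct_comm]
    exact h3
  · have h1 : IsCompl K Kᗮ := Submodule.isCompl_orthogonal K
    have h2 : K.map L.toLinearMap = W := by
      change (W.comap L.toLinearMap).map L.toLinearMap = W
      exact Submodule.map_comap_eq_of_surjective L.surjective W
    have h3 : IsCompl (K.map L.toLinearMap) (Kᗮ.map L.toLinearMap) := by
      have := (Submodule.orderIsoMapComap L).isCompl h1
      exact this
    rwa [h2] at h3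

end Pool.Agent.R788.SA
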